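import Mathlib
import Pool.Agent.H153R4.Pl
import Pool.Agent.R244.PQ.Ft
set_option autoImplicit false

/-! A superposition formula for truncated radial kernels. -/

namespace Pool.Agent.R245.PD

open MeasureTheory Set Complex Filter FourierTransform
open scoped ENNReal NNReal ComplexConjugate
open Pool.Agent.R244.PQ (e e_norm e_add e_neg e_cont dot)

/-- Parseval's formula for two functions in `L^1 ∩ L^2` -/
theorem pars {f h : ℝ → ℂ} (f1 : Integrable f) (f2 : MemLp f 2) (h1 : Integrable h)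
    (h2 : MemLp h 2) : ∫ x, 𝓕 f x * conj (𝓕 h x) = ∫ x, f x * conj (h x) := by
  have a1 := Pool.Agent.H153R4.fourier_ae_eq f f1 f2
  have a2 := Pool.Agent.H153R4.fourier_ae_eq h h1 h2
  have a3 := Lp.inner_fourier_eq (h2.toLp h) (f2.toLp f)
  rw [L2.inner_def, L2.inner_def] at a3
  have b1 : ∫ x, inner ℂ ((𝓕 (h2.toLp h) : Lp ℂ 2 (volume : Measure ℝ)) x)
      ((𝓕 (f2.toLp f) : Lp ℂ 2 (volume : Measure ℝ)) x) = ∫ x, 𝓕 f x * conj (𝓕 h x) := by
    apply integral_congr_ae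
    filter_upwards [a1, a2] with x hx hx'
    rw [hx, hx']
    rfl
  have b2 : ∫ x, inner ℂ ((h2.toLp h : Lp ℂ 2 (volume : Measure ℝ)) x)
      ((f2.toLp f : Lp ℂ 2 (volume : Measure ℝ)) x) = ∫ x, f x * conj (h x) := by
    apply integral_congr_ae
    filter_upwards [f2.coeFn_toLp, h2.coeFn_toLp] with x hx hx'
    rw [hx, hx']
    rfl
  rw [← b1, ← b2]
  exact a3

lemma four_eq (f : ℝ → ℂ) (ν : ℝ) : 𝓕 f ν = ∫ s, f s * e (-(s * ν)) := by
  rw [Real.fourier_eq]
  apply integral_congr_ae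
  refine ae_of_all _ fun s => ?_
  simp only
  rw [Circle.smul_def, Real.fourierChar_apply, smul_eq_mul, mul_comm]
  congr 1
  unfold e
  congr 1
  simp only [RCLike.inner_apply, conj_trivial]
  push_cast
  ring

/-- the truncation -/
noncomputable def ct (σ s : ℝ) : ℝ := if Real.sqrt s < σ then 1 else 0

lemma ct_norm (σ s : ℝ) : ‖(ct σ s : ℂ)‖ ≤ 1 := by
  unfold ct
  split_ifs <;> simp

/-- the kernel of the disc of radius `3` -/
noncomputable def Kr (u t : ℝ) : ℂ := ∫ s in Ioc (0:ℝ) 9, (1 / 2 : ℂ) * e (Real.sqrt s * u + s * t)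

/-- the truncated kernel -/
noncomputable def Ks (σ u t : ℝ) : ℂ :=
  ∫ s in Ioc (0:ℝ) 9, (ct σ s : ℂ) * ((1 / 2 : ℂ) * e (Real.sqrt s * u + s * t))

/-- the coefficients -/
noncomputable def cf (σ ν : ℝ) : ℂ := ∫ s in Ioc (0:ℝ) 9, (ct σ s : ℂ) * e (s * ν)

noncomputable def fK (u t s : ℝ) : ℂ :=
  (Ioc (0:ℝ) 9).indicator (fun s => (1 / 2 : ℂ) * e (Real.sqrt s * u + s * t)) s

noncomputable def hK (σ s : ℝ) : ℂ := (Ioc (0:ℝ) 9).indicator (fun s => (ct σ s : ℂ)) s

lemma ct_meas2 : Measurable fun q : ℝ × ℝ => ct q.1 q.2 := by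
  unfold ct
  apply Measurable.ite _ measurable_const measurable_const
  exact measurableSet_lt (Real.continuous_sqrt.measurable.comp measurable_snd) measurable_fst

lemma ct_meas (σ : ℝ) : Measurable (ct σ) :=
  ct_meas2.comp (f := fun s : ℝ => (σ, s)) (by fun_prop)

lemma bdd_ML {f : ℝ → ℂ} (hf : Measurable f) (hb : ∀ s, ‖f s‖ ≤ 1)
    (h0 : ∀ s, s ∉ Ioc (0:ℝ) 9 → f s = 0) (p : ℝ≥0∞) : MemLp f p := by
  have e1 : f = (Ioc (0:ℝ) 9).indicator f := by
    funext s
    by_cases h : s ∈ Ioc (0:ℝ) 9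
    · rw [indicator_of_mem h]
    · rw [indicator_of_notMem h, h0 s h]
  rw [e1, memLp_indicator_iff_restrict measurableSet_Ioc]
  exact MemLp.of_bound hf.aestronglyMeasurable 1 (ae_of_all _ hb)

lemma fK_meas (u t : ℝ) : Measurable (fK u t) := by
  unfold fK
  have he : Measurable e := e_cont.measurable
  have : Measurable fun s : ℝ => (1 / 2 : ℂ) * e (Real.sqrt s * u + s * t) := by
    have h1 : Measurable fun s : ℝ => Real.sqrt s * u + s * t := by fun_prop
    exact (he.comp h1).const_mul _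
  exact this.indicator measurableSet_Ioc

lemma fK_bd (u t s : ℝ) : ‖fK u t s‖ ≤ 1 := by
  unfold fK
  by_cases h : s ∈ Ioc (0:ℝ) 9
  · rw [indicator_of_mem h, norm_mul, e_norm]
    norm_num
  · rw [indicator_of_notMem h, norm_zero]
    exact zero_le_one

lemma fK_ML (u t : ℝ) (p : ℝ≥0∞) : MemLp (fK u t) p :=
  bdd_ML (fK_meas u t) (fK_bd u t) (fun s hs => indicator_of_notMem hs _) p

lemma hK_meas (σ : ℝ) : Measurable (hK σ) := by
  unfold hK
  exact (Complex.measurable_ofReal.comp (ct_meas σ)).indicator measurableSet_Ioc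

lemma hK_bd (σ s : ℝ) : ‖hK σ s‖ ≤ 1 := by
  unfold hK
  by_cases h : s ∈ Ioc (0:ℝ) 9
  · rw [indicator_of_mem h]
    exact ct_norm σ s
  · rw [indicator_of_notMem h, norm_zero]
    exact zero_le_one

lemma hK_ML (σ : ℝ) (p : ℝ≥0∞) : MemLp (hK σ) p :=
  bdd_ML (hK_meas σ) (hK_bd σ) (fun s hs => indicator_of_notMem hs _) p

lemma four_fK (u t ν : ℝ) : 𝓕 (fK u t) ν = Kr u (t - ν) := by
  rw [four_eq]
  unfold Kr
  rw [← integral_indicator measurableSet_Ioc]
  congr 1
  funext s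
  unfold fK
  by_cases h : s ∈ Ioc (0:ℝ) 9
  · rw [indicator_of_mem h, indicator_of_mem h, mul_assoc, ← e_add]
    congr 2
    ring
  · rw [indicator_of_notMem h, indicator_of_notMem h, zero_mul]

lemma four_hK (σ ν : ℝ) : conj (𝓕 (hK σ) ν) = cf σ ν := by
  rw [four_eq, ← integral_conj]
  unfold cf
  rw [← integral_indicator measurableSet_Ioc]
  congr 1
  funext s
  unfold hK
  by_cases h : s ∈ Ioc (0:ℝ) 9
  · rw [indicator_of_mem h, indicator_of_mem h, map_mul, ← e_neg, neg_neg, Complex.conj_ofReal]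
  · rw [indicator_of_notMem h, indicator_of_notMem h, zero_mul, map_zero]

/-- the superposition formula -/
theorem Ks_eq (σ u t : ℝ) : Ks σ u t = ∫ ν, cf σ ν * Kr u (t - ν) := by
  have h := pars (memLp_one_iff_integrable.1 (fK_ML u t 1)) (fK_ML u t 2)
    (memLp_one_iff_integrable.1 (hK_ML σ 1)) (hK_ML σ 2)
  simp only [four_fK, four_hK] at h
  have e1 : ∫ x, fK u t x * conj (hK σ x) = Ks σ u t := by
    unfold Ks
    rw [← integral_indicator measurableSet_Ioc]
    congr 1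
    funext s
    unfold hK fK
    by_cases h : s ∈ Ioc (0:ℝ) 9
    · rw [indicator_of_mem h, indicator_of_mem h, indicator_of_mem h, Complex.conj_ofReal, mul_comm]
    · rw [indicator_of_notMem h, indicator_of_notMem h, indicator_of_notMem h, zero_mul]
  rw [← e1, ← h]
  congr 1
  funext ν
  rw [mul_comm]

/-- the weight -/
noncomputable def wt (ν : ℝ) : ℝ := 18 / (1 + |ν|)

lemma wt_pos (ν : ℝ) : 0 < wt ν := by
  unfold wt
  positivity

lemma e_int {ν : ℝ} (hν : ν ≠ 0) {c : ℝ} : ‖∫ s in (0:ℝ)..c, e (s * ν)‖ ≤ 1 / (Real.pi * |ν|) := by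
  have h1 : ∫ s in (0:ℝ)..c, e (s * ν) =
      (e (c * ν) - 1) / (2 * Real.pi * ν * I) := by
    have hne : (2 * Real.pi * ν * I : ℂ) ≠ 0 := by
      simp [Real.pi_ne_zero, hν, I_ne_zero]
    have h2 := integral_exp_mul_complex (a := 0) (b := c) hne
    have h3 : ∀ s : ℝ, e (s * ν) = cexp ((2 * Real.pi * ν * I) * s) := by
      intro s
      unfold e
      congr 1
      push_cast
      ring
    simp_rw [h3]
    rw [h2]
    simp
  rw [h1, norm_div]
  have h4 : ‖e (c * ν) - 1‖ ≤ 2 := by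
    calc ‖e (c * ν) - 1‖ ≤ ‖e (c * ν)‖ + ‖(1:ℂ)‖ := norm_sub_le _ _
      _ = 2 := by rw [e_norm, norm_one]; norm_num
  have h5 : ‖(2 * Real.pi * ν * I : ℂ)‖ = 2 * (Real.pi * |ν|) := by
    rw [norm_mul, norm_I, mul_one, norm_mul, norm_mul, Complex.norm_real, Complex.norm_real,
      Real.norm_eq_abs, Real.norm_eq_abs, abs_of_pos Real.pi_pos]
    simp
    ring
  rw [h5, div_le_div_iff₀ (by positivity) (by positivity)]
  nlinarith [show 0 < Real.pi * |ν| by positivity]

lemma ct_Ioc (σ : ℝ) : ∃ c : ℝ, 0 ≤ c ∧ c ≤ 9 ∧ ∀ s ∈ Ioc (0:ℝ) 9, s ≠ c →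
    (ct σ s : ℂ) = (Ioc (0:ℝ) c).indicator (fun _ => (1:ℂ)) s := by
  refine ⟨(min (max σ 0) 3) ^ 2, by positivity, ?_, ?_⟩
  · have h1 : 0 ≤ min (max σ 0) 3 := le_min (le_max_right _ _) (by norm_num)
    have h2 : min (max σ 0) 3 ≤ 3 := min_le_right _ _
    nlinarith
  · intro s hs hne
    have h1 : 0 ≤ min (max σ 0) 3 := le_min (le_max_right _ _) (by norm_num)
    have hs0 : 0 < Real.sqrt s := Real.sqrt_pos.2 hs.1
    have hs3 : Real.sqrt s ≤ 3 := by
      rw [Real.sqrt_le_left (by norm_num)]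
      linarith [hs.2]
    unfold ct
    by_cases h : Real.sqrt s < σ
    · rw [if_pos h, indicator_of_mem]
      · simp
      · refine ⟨hs.1, ?_⟩
        rw [← Real.sqrt_le_left h1]
        exact le_min ((le_of_lt h).trans (le_max_left _ _)) hs3
    · rw [if_neg h, indicator_of_notMem]
      · simp
      · intro h2
        have h3 : Real.sqrt s ≤ min (max σ 0) 3 := (Real.sqrt_le_left h1).2 h2.2
        have h4 : Real.sqrt s ≤ max σ 0 := h3.trans (min_le_left _ _)
        have h5 : Real.sqrt s ≤ σ := by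
          rcases le_max_iff.1 h4 with h | h
          · exact h
          · linarith
        have h6 : Real.sqrt s = σ := le_antisymm h5 (not_lt.1 h)
        apply hne
        have h7 : min (max σ 0) 3 = Real.sqrt s := by
          rw [← h6, max_eq_left hs0.le, min_eq_left hs3]
        rw [h7, Real.sq_sqrt hs.1.le]

lemma cf_le (σ ν : ℝ) : ‖cf σ ν‖ ≤ wt ν := by
  have hb : ‖cf σ ν‖ ≤ 9 := by
    unfold cf
    have := norm_setIntegral_le_of_norm_le_const (μ := volume) (s := Ioc (0:ℝ) 9)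
      (f := fun s => (ct σ s : ℂ) * e (s * ν)) (C := 1) (by simp) (fun s _ => by
        rw [norm_mul, e_norm, mul_one]
        exact ct_norm σ s)
    simpa using this
  unfold wt
  rcases le_total |ν| 1 with h | h
  · refine hb.trans ?_
    rw [le_div_iff₀ (by positivity)]
    linarith
  · have hν : ν ≠ 0 := by
      intro h0
      rw [h0, abs_zero] at h
      linarith
    obtain ⟨c, hc0, hc9, hc⟩ := ct_Ioc σ
    have h1 : cf σ ν = ∫ s in (0:ℝ)..c, e (s * ν) := by
      unfold cf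
      have e1 : ∫ s in Ioc (0:ℝ) 9, (ct σ s : ℂ) * e (s * ν) =
          ∫ s in Ioc (0:ℝ) 9, (Ioc (0:ℝ) c).indicator (fun s => e (s * ν)) s := by
        apply setIntegral_congr_ae measurableSet_Ioc
        have h0 : ∀ᵐ s : ℝ, s ≠ c := by
          rw [ae_iff]
          simp
        filter_upwards [h0] with s hs hs'
        rw [hc s hs' hs]
        by_cases h2 : s ∈ Ioc (0:ℝ) c
        · rw [indicator_of_mem h2, indicator_of_mem h2, one_mul]
        · rw [indicator_of_notMem h2, indicator_of_notMem h2, zero_mul]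
      rw [e1, setIntegral_indicator measurableSet_Ioc, intervalIntegral.integral_of_le hc0]
      congr 2
      ext s
      constructor
      · rintro ⟨_, h2⟩
        exact h2
      · intro h2
        exact ⟨⟨h2.1, h2.2.trans hc9⟩, h2⟩
    rw [h1]
    refine (e_int hν).trans ?_
    have h3 : 0 < |ν| := by linarith
    rw [div_le_div_iff₀ (by positivity) (by positivity)]
    nlinarith [Real.pi_gt_three]

lemma cf_meas2 : Measurable fun q : ℝ × ℝ => cf q.1 q.2 := by
  unfold cf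
  have he : Measurable e := e_cont.measurable
  have h1 : Measurable (fun w : (ℝ × ℝ) × ℝ => (ct w.1.1 w.2 : ℂ) * e (w.2 * w.1.2)) := by
    have m1 : Measurable fun w : (ℝ × ℝ) × ℝ => (ct w.1.1 w.2 : ℂ) :=
      Complex.measurable_ofReal.comp (ct_meas2.comp
        (f := fun w : (ℝ × ℝ) × ℝ => (w.1.1, w.2)) (by fun_prop))
    have m2 : Measurable fun w : (ℝ × ℝ) × ℝ => w.2 * w.1.2 := by fun_prop
    exact m1.mul (he.comp m2)
  exact (StronglyMeasurable.integral_prod_right' (ν := volume.restrict (Ioc (0:ℝ) 9))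
    h1.stronglyMeasurable).measurable

lemma Kr_meas2 : Measurable fun q : ℝ × ℝ => Kr q.1 q.2 := by
  unfold Kr
  have he : Measurable e := e_cont.measurable
  have h1 : Measurable (fun w : (ℝ × ℝ) × ℝ =>
      (1 / 2 : ℂ) * e (Real.sqrt w.2 * w.1.1 + w.2 * w.1.2)) := by
    have m2 : Measurable fun w : (ℝ × ℝ) × ℝ => Real.sqrt w.2 * w.1.1 + w.2 * w.1.2 := by
      fun_prop
    exact (he.comp m2).const_mul _
  exact (StronglyMeasurable.integral_prod_right' (ν := volume.restrict (Ioc (0:ℝ) 9))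
    h1.stronglyMeasurable).measurable

lemma Kr_le (u t : ℝ) : ‖Kr u t‖ ≤ 9 := by
  unfold Kr
  have := norm_setIntegral_le_of_norm_le_const (μ := volume) (s := Ioc (0:ℝ) 9)
    (f := fun s => (1 / 2 : ℂ) * e (Real.sqrt s * u + s * t)) (C := 1) (by simp) (fun s _ => by
      rw [norm_mul, e_norm, mul_one]
      norm_num)
  simpa using this

/-- the `L²` norm in time -/
lemma Kr_two (u t : ℝ) : ∫⁻ ν, ‖Kr u (t - ν)‖ₑ ^ 2 ≤ 9 := by
  have h := Pool.Agent.H153R4.plancherel (fK u t) (memLp_one_iff_integrable.1 (fK_ML u t 1))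
    (fK_ML u t 2)
  simp only [four_fK] at h
  rw [h]
  calc ∫⁻ s, ‖fK u t s‖ₑ ^ 2 ≤ ∫⁻ s, (Ioc (0:ℝ) 9).indicator (fun _ => (1:ℝ≥0∞)) s := by
        apply lintegral_mono
        intro s
        by_cases h : s ∈ Ioc (0:ℝ) 9
        · simp only [indicator_of_mem h]
          have h1 : ‖fK u t s‖ₑ ≤ 1 := by
            rw [← ofReal_norm, ← ENNReal.ofReal_one]
            exact ENNReal.ofReal_le_ofReal (fK_bd u t s)
          calc ‖fK u t s‖ₑ ^ 2 ≤ 1 ^ 2 := by gcongr
            _ = 1 := one_pow 2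
        · simp only [indicator_of_notMem h]
          unfold fK
          rw [indicator_of_notMem h]
          simp
    _ = 9 := by
        rw [lintegral_indicator measurableSet_Ioc]
        simp

lemma wt_two : ∫⁻ ν, ENNReal.ofReal (wt ν) ^ 2 < ∞ := by
  have hint : Integrable (fun τ : ℝ => 18 ^ 2 * (1 + ‖τ‖) ^ (-(2:ℝ))) :=
    (integrable_one_add_norm (by simp)).const_mul _
  refine lt_of_le_of_lt (le_of_eq ?_) hint.lintegral_lt_top
  apply lintegral_congr
  intro ν
  rw [← ENNReal.ofReal_pow (wt_pos ν).le]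
  congr 1
  unfold wt
  rw [Real.rpow_neg (by positivity), Real.norm_eq_abs]
  have : (1 + |ν|) ^ (2:ℝ) = (1 + |ν|) ^ 2 := by
    rw [← Real.rpow_natCast]
    norm_num
  rw [this]
  field_simp

/-- a uniform bound for the superposition integrals -/
lemma wK_fin : ∃ M : ℝ, 0 < M ∧ ∀ u t : ℝ,
    ∫⁻ ν, ENNReal.ofReal (wt ν) * ‖Kr u (t - ν)‖ₑ ≤ ENNReal.ofReal M := by
  obtain ⟨W, hW⟩ : ∃ W, W = ∫⁻ ν, ENNReal.ofReal (wt ν) ^ 2 := ⟨_, rfl⟩
  have hWt : W < ∞ := by rw [hW]; exact wt_two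
  refine ⟨(W + 9).toReal + 1, by positivity, fun u t => ?_⟩
  have hm : Measurable fun ν : ℝ => ‖Kr u (t - ν)‖ₑ :=
    (Kr_meas2.comp (f := fun ν : ℝ => (u, t - ν)) (by fun_prop)).enorm
  have hwm : Measurable fun ν : ℝ => ENNReal.ofReal (wt ν) := by
    unfold wt
    fun_prop
  calc ∫⁻ ν, ENNReal.ofReal (wt ν) * ‖Kr u (t - ν)‖ₑ
      ≤ ∫⁻ ν, (ENNReal.ofReal (wt ν) ^ 2 + ‖Kr u (t - ν)‖ₑ ^ 2) := by
        apply lintegral_mono
        intro ν
        simp only
        rcases le_total (ENNReal.ofReal (wt ν)) ‖Kr u (t - ν)‖ₑ with h | h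
        · calc ENNReal.ofReal (wt ν) * ‖Kr u (t - ν)‖ₑ
              ≤ ‖Kr u (t - ν)‖ₑ * ‖Kr u (t - ν)‖ₑ := by gcongr
            _ = ‖Kr u (t - ν)‖ₑ ^ 2 := (sq _).symm
            _ ≤ _ := le_add_self
        · calc ENNReal.ofReal (wt ν) * ‖Kr u (t - ν)‖ₑ
              ≤ ENNReal.ofReal (wt ν) * ENNReal.ofReal (wt ν) := by gcongr
            _ = ENNReal.ofReal (wt ν) ^ 2 := (sq _).symm
            _ ≤ _ := le_self_add
    _ = W + ∫⁻ ν, ‖Kr u (t - ν)‖ₑ ^ 2 := by
        rw [lintegral_add_left (hwm.pow_const 2), hW]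
    _ ≤ W + 9 := by gcongr; exact Kr_two u t
    _ = ENNReal.ofReal (W + 9).toReal := (ENNReal.ofReal_toReal (by
        exact ENNReal.add_ne_top.2 ⟨hWt.ne, by simp⟩)).symm
    _ ≤ _ := ENNReal.ofReal_le_ofReal (by linarith)

end Pool.Agent.R245.PD
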