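import Mathlib
import Pool.Agent.R245.PD.D1
import Pool.Agent.R245.PB.Pol
import Pool.Agent.R244.PQ.Glo
set_option autoImplicit false

/-! Polar coordinates and the fixed time estimate for the disc. -/

namespace Pool.Agent.R245.PD

open MeasureTheory Set Complex Filter
open scoped ENNReal NNReal
open Pool.Agent.R244.PQ (e e_norm e_add e_neg e_cont dot ag ag_polar ag_meas md Ft Wq fixP)
open Pool.Agent.R245.PB (mu I0 pf lint_pf pf_meas)

/-- the radial measure -/
noncomputable def nus : Measure ℝ := (2⁻¹ : ℝ≥0∞) • volume.restrict (Ioc (0:ℝ) 9)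

instance : IsFiniteMeasure nus := by
  unfold nus
  have : IsFiniteMeasure ((2⁻¹ : ℝ≥0) • (volume.restrict (Ioc (0:ℝ) 9))) := inferInstance
  have h : ((2⁻¹ : ℝ≥0∞) • volume.restrict (Ioc (0:ℝ) 9)) =
      ((2⁻¹ : ℝ≥0) • (volume.restrict (Ioc (0:ℝ) 9))) := by
    ext s hs
    simp [ENNReal.smul_def]
  rw [h]
  exact this

instance : IsFiniteMeasure mu := by
  unfold mu I0
  infer_instance

/-- polar coordinates -/
noncomputable def Psi (q : ℝ × ℝ) : ℝ × ℝ :=
  (Real.sqrt q.1 * Real.cos q.2, Real.sqrt q.1 * Real.sin q.2)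

/-- the disc -/
def Dk : Set (ℝ × ℝ) := {ξ | dot ξ ξ ≤ 9}

lemma Dk_meas : MeasurableSet Dk := by
  unfold Dk dot
  exact measurableSet_le (by fun_prop) measurable_const

lemma Psi_meas : Measurable Psi := by
  unfold Psi
  fun_prop

lemma dot_Psi {q : ℝ × ℝ} (hq : 0 ≤ q.1) : dot (Psi q) (Psi q) = q.1 := by
  unfold dot Psi
  have h1 := Real.sq_sqrt hq
  have h2 := Real.sin_sq_add_cos_sq q.2
  simp only
  linear_combination (Real.sqrt q.1) ^ 2 * h2 + h1

lemma Psi_pf (G : ℝ × ℝ → ℝ≥0∞) (ξ : ℝ × ℝ) :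
    pf (fun θ s => G (Psi (s, θ))) ξ = G ξ := by
  unfold pf Psi
  simp only
  congr 1
  have h1 : (polarCoord ξ).2 = Complex.arg (ξ.1 + ξ.2 * I) := by
    rw [← Complex.equivRealProd_symm_apply]
    rfl
  have h2 : Real.sqrt (ξ.1 ^ 2 + ξ.2 ^ 2) = ‖(ξ.1 + ξ.2 * I : ℂ)‖ := by
    rw [Complex.norm_add_mul_I]
  rw [h1, h2, Complex.norm_mul_cos_arg, Complex.norm_mul_sin_arg]
  simp

theorem Psi_mp : MeasurePreserving Psi (nus.prod mu) (volume.restrict Dk) := by
  refine ⟨Psi_meas, ?_⟩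
  ext A hA
  rw [Measure.map_apply Psi_meas hA, Measure.restrict_apply hA,
    Measure.prod_apply_symm (Psi_meas hA)]
  have hAD : MeasurableSet (A ∩ Dk) := hA.inter Dk_meas
  have hm : Measurable fun p : ℝ × ℝ => (A ∩ Dk).indicator (fun _ => (1:ℝ≥0∞)) (Psi (p.2, p.1)) :=
    (measurable_const.indicator hAD).comp (Psi_meas.comp
      (g := Psi) (f := fun p : ℝ × ℝ => (p.2, p.1)) (by fun_prop))
  have h1 := lint_pf (Φ := fun θ s => (A ∩ Dk).indicator (fun _ => (1:ℝ≥0∞)) (Psi (s, θ))) hm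
  have h2 : ∫⁻ ξ, pf (fun θ s => (A ∩ Dk).indicator (fun _ => (1:ℝ≥0∞)) (Psi (s, θ))) ξ =
      volume (A ∩ Dk) := by
    have : ∀ ξ, pf (fun θ s => (A ∩ Dk).indicator (fun _ => (1:ℝ≥0∞)) (Psi (s, θ))) ξ =
        (A ∩ Dk).indicator (fun _ => (1:ℝ≥0∞)) ξ := fun ξ => Psi_pf _ ξ
    simp_rw [this]
    rw [lintegral_indicator hAD]
    simp
  rw [h2] at h1
  have h3 : ∀ θ, ∫⁻ s in Ioi (0:ℝ), (A ∩ Dk).indicator (fun _ => (1:ℝ≥0∞)) (Psi (s, θ)) =
      volume (((fun s : ℝ => (s, θ)) ⁻¹' (Psi ⁻¹' A)) ∩ Ioc (0:ℝ) 9) := by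
    intro θ
    have hms : Measurable fun s : ℝ => Psi (s, θ) := Psi_meas.comp (by fun_prop)
    have e1 : ∀ s ∈ Ioi (0:ℝ), (A ∩ Dk).indicator (fun _ => (1:ℝ≥0∞)) (Psi (s, θ)) =
        (((fun s : ℝ => (s, θ)) ⁻¹' (Psi ⁻¹' A)) ∩ Ioc (0:ℝ) 9).indicator
          (fun _ => (1:ℝ≥0∞)) s := by
      intro s hs
      have hs0 : (0:ℝ) < s := hs
      by_cases h : Psi (s, θ) ∈ A ∩ Dk
      · rw [indicator_of_mem h, indicator_of_mem]
        refine ⟨h.1, hs, ?_⟩
        have := h.2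
        unfold Dk at this
        rw [mem_ofPred_eq, dot_Psi hs0.le] at this
        exact this
      · rw [indicator_of_notMem h, indicator_of_notMem]
        rintro ⟨h4, h5⟩
        apply h
        refine ⟨h4, ?_⟩
        unfold Dk
        rw [mem_ofPred_eq, dot_Psi hs0.le]
        exact h5.2
    rw [setLIntegral_congr_fun measurableSet_Ioi e1, ← lintegral_indicator measurableSet_Ioi]
    have hB : MeasurableSet (((fun s : ℝ => (s, θ)) ⁻¹' (Psi ⁻¹' A)) ∩ Ioc (0:ℝ) 9) :=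
      (hms hA).inter measurableSet_Ioc
    have e2 : ∀ s, (Ioi (0:ℝ)).indicator (fun s =>
        (((fun s : ℝ => (s, θ)) ⁻¹' (Psi ⁻¹' A)) ∩ Ioc (0:ℝ) 9).indicator
          (fun _ => (1:ℝ≥0∞)) s) s =
        (((fun s : ℝ => (s, θ)) ⁻¹' (Psi ⁻¹' A)) ∩ Ioc (0:ℝ) 9).indicator
          (fun _ => (1:ℝ≥0∞)) s := by
      intro s
      by_cases h : s ∈ Ioi (0:ℝ)
      · rw [indicator_of_mem h]
      · rw [indicator_of_notMem h, indicator_of_notMem]
        intro h4
        exact h h4.2.1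
    simp_rw [e2]
    rw [lintegral_indicator hB]
    simp
  simp_rw [h3] at h1
  have h4 : ∀ θ, nus ((fun s : ℝ => (s, θ)) ⁻¹' (Psi ⁻¹' A)) =
      2⁻¹ * volume (((fun s : ℝ => (s, θ)) ⁻¹' (Psi ⁻¹' A)) ∩ Ioc (0:ℝ) 9) := by
    intro θ
    have hms : Measurable fun s : ℝ => Psi (s, θ) := Psi_meas.comp (by fun_prop)
    unfold nus
    rw [Measure.smul_apply, smul_eq_mul]
    congr 1
    exact Measure.restrict_apply (hms hA)
  simp_rw [h4]
  rw [lintegral_const_mul' _ _ (by norm_num), ← h1, ← mul_assoc,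
    ENNReal.inv_mul_cancel (by norm_num) (by norm_num), one_mul]

lemma Kr_nus (u t : ℝ) : Kr u t = ∫ s, e (Real.sqrt s * u + s * t) ∂nus := by
  unfold Kr nus
  rw [integral_smul_measure, integral_const_mul]
  simp

lemma Ks_nus (σ u t : ℝ) :
    Ks σ u t = ∫ s, (ct σ s : ℂ) * e (Real.sqrt s * u + s * t) ∂nus := by
  unfold Ks nus
  rw [integral_smul_measure]
  have : ∀ s : ℝ, (ct σ s : ℂ) * ((1 / 2 : ℂ) * e (Real.sqrt s * u + s * t)) =
      (1 / 2 : ℂ) * ((ct σ s : ℂ) * e (Real.sqrt s * u + s * t)) := fun s => by ring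
  simp_rw [this]
  rw [integral_const_mul]
  simp

/-- the direction -/
noncomputable def om (x : ℝ × ℝ) (θ : ℝ) : ℝ := dot x (Real.cos θ, Real.sin θ)

lemma om_cont : Continuous fun p : (ℝ × ℝ) × ℝ => om p.1 p.2 := by
  unfold om dot
  fun_prop

lemma dot_Psi_om (x q : ℝ × ℝ) : dot x (Psi q) = Real.sqrt q.1 * om x q.2 := by
  unfold dot Psi om dot
  ring

/-- a step function has small variation -/
lemma step_var (c : ℂ) (f : ℝ → ℂ) (hf : ∀ r ∈ Ioi (0:ℝ), f r = if r ≤ 3 then c else 0) :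
    eVariationOn f (Ioi 0) ≤ ‖c‖ₑ := by
  unfold eVariationOn
  apply iSup_le
  rintro ⟨n, u, hu, hus⟩
  simp only
  have h1 : ∀ i, edist (f (u (i + 1))) (f (u i)) =
      ‖c‖ₑ * ENNReal.ofReal ((if u i ≤ 3 then (1:ℝ) else 0) - (if u (i + 1) ≤ 3 then 1 else 0)) := by
    intro i
    rw [hf _ (hus (i + 1)), hf _ (hus i)]
    have h2 : u i ≤ u (i + 1) := hu (Nat.le_succ i)
    by_cases h3 : u (i + 1) ≤ 3
    · rw [if_pos h3, if_pos (h2.trans h3), if_pos h3, if_pos (h2.trans h3)]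
      simp
    · by_cases h4 : u i ≤ 3
      · rw [if_neg h3, if_pos h4, if_neg h3, if_pos h4]
        simp [edist_eq_enorm_sub]
      · rw [if_neg h3, if_neg h4, if_neg h3, if_neg h4]
        simp
  simp_rw [h1]
  rw [← Finset.mul_sum]
  have h5 : ∑ i ∈ Finset.range n, ENNReal.ofReal ((if u i ≤ 3 then (1:ℝ) else 0) -
      (if u (i + 1) ≤ 3 then 1 else 0)) ≤ 1 := by
    rw [← ENNReal.ofReal_sum_of_nonneg, Finset.sum_range_sub', ← ENNReal.ofReal_one]
    · apply ENNReal.ofReal_le_ofReal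
      split_ifs <;> norm_num
    · intro i _
      have h2 : u i ≤ u (i + 1) := hu (Nat.le_succ i)
      by_cases h3 : u (i + 1) ≤ 3
      · rw [if_pos h3, if_pos (h2.trans h3)]
        norm_num
      · rw [if_neg h3]
        split_ifs <;> norm_num
  calc ‖c‖ₑ * _ ≤ ‖c‖ₑ * 1 := by gcongr
    _ = ‖c‖ₑ := mul_one _

/-- The fixed time estimate for the disc. -/
theorem disc {κ q : ℝ} (hκ : 0 < κ) (h1 : κ < q - 2) (h2 : κ < 2) : ∃ C : ℝ, 0 < C ∧
    ∀ (t : ℝ) (g : ℝ → ℂ), Measurable g → (∃ B, ∀ θ, ‖g θ‖ ≤ B) →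
    ∫⁻ x : ℝ × ℝ, ‖∫ θ, g θ * Kr (om x θ) t ∂mu‖ₑ ^ q ≤
      ENNReal.ofReal (C * (1 + |t|) ^ (-κ)) * ∫⁻ θ, ‖g θ‖ₑ ^ q ∂mu := by
  obtain ⟨C, hC, h⟩ := fixP (U := 9) (R := 0) (by norm_num) hκ h1 h2
  refine ⟨C, hC, fun t g hg hb => ?_⟩
  obtain ⟨B, hB⟩ := hb
  obtain ⟨f, hf⟩ : ∃ f : ℝ × ℝ → ℂ, f = fun ξ => if 0 < dot ξ ξ ∧ dot ξ ξ ≤ 9 then g (ag ξ) else 0 :=
    ⟨_, rfl⟩
  have hd : Measurable fun ξ : ℝ × ℝ => dot ξ ξ := by
    unfold dot
    fun_prop
  have hfm : Measurable f := by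
    rw [hf]
    apply Measurable.ite _ (hg.comp ag_meas) measurable_const
    exact (measurableSet_lt measurable_const hd).inter (measurableSet_le hd measurable_const)
  have hfP : ∀ q : ℝ × ℝ, q.1 ∈ Ioc (0:ℝ) 9 → q.2 ∈ Ioc (-Real.pi) Real.pi →
      f (Psi q) = g q.2 := by
    intro q h1 h2
    rw [hf]
    simp only
    rw [dot_Psi h1.1.le, if_pos ⟨h1.1, h1.2⟩]
    congr 1
    exact ag_polar (Real.sqrt_pos.2 h1.1) h2
  have key := h t 0 f (fun θ => ‖g θ‖ₑ) (by unfold dot; simp) hfm (by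
      intro ξ hξ
      rw [hf]
      simp only
      rw [if_neg]
      rintro ⟨_, h4⟩
      linarith) hg.enorm (by
      intro θ hθ
      apply step_var
      intro r hr
      have hr0 : (0:ℝ) < r := hr
      rw [zero_add, hf]
      simp only
      have e1 : dot (r * Real.cos θ, r * Real.sin θ) (r * Real.cos θ, r * Real.sin θ) = r ^ 2 := by
        unfold dot
        have := Real.sin_sq_add_cos_sq θ
        simp only
        linear_combination r ^ 2 * this
      rw [e1, ag_polar hr0 hθ]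
      by_cases h5 : r ≤ 3
      · rw [if_pos h5, if_pos]
        exact ⟨by positivity, by nlinarith⟩
      · rw [if_neg h5, if_neg]
        rintro ⟨_, h6⟩
        apply h5
        nlinarith)
  have e2 : ∀ x, Ft (md f t) x = ∫ θ, g θ * Kr (om x θ) t ∂mu := by
    intro x
    have m0 : Measurable fun ξ : ℝ × ℝ => md f t ξ * e (dot x ξ) := by
      unfold md
      have he : Measurable e := e_cont.measurable
      have a1 : Measurable fun ξ : ℝ × ℝ => t * dot ξ ξ := hd.const_mul t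
      have a2 : Measurable fun ξ : ℝ × ℝ => dot x ξ := by
        unfold dot
        fun_prop
      exact (hfm.mul (he.comp a1)).mul (he.comp a2)
    have b1 : Ft (md f t) x = ∫ ξ in Dk, md f t ξ * e (dot x ξ) := by
      unfold Ft
      rw [← integral_indicator Dk_meas]
      congr 1
      funext ξ
      by_cases h6 : ξ ∈ Dk
      · rw [indicator_of_mem h6]
      · rw [indicator_of_notMem h6]
        unfold md
        rw [hf]
        simp only
        rw [if_neg]
        · simp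
        · rintro ⟨_, h7⟩
          exact h6 h7
    rw [b1, ← Psi_mp.map_eq, integral_map Psi_meas.aemeasurable m0.aestronglyMeasurable]
    have b2 : ∫ q, md f t (Psi q) * e (dot x (Psi q)) ∂(nus.prod mu) =
        ∫ q : ℝ × ℝ, g q.2 * e (Real.sqrt q.1 * om x q.2 + q.1 * t) ∂(nus.prod mu) := by
      apply integral_congr_ae
      have c1 : ∀ᵐ q : ℝ × ℝ ∂(nus.prod mu), q.1 ∈ Ioc (0:ℝ) 9 := by
        have : ∀ᵐ s ∂nus, s ∈ Ioc (0:ℝ) 9 := by
          unfold nus
          apply Measure.ae_smul_measure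
          exact ae_restrict_mem measurableSet_Ioc
        exact Measure.quasiMeasurePreserving_fst.ae this
      have c2 : ∀ᵐ q : ℝ × ℝ ∂(nus.prod mu), q.2 ∈ I0 := by
        have : ∀ᵐ s ∂mu, s ∈ I0 := by
          unfold mu
          exact ae_restrict_mem Pool.Agent.R245.PB.I0_meas
        exact Measure.quasiMeasurePreserving_snd.ae this
      filter_upwards [c1, c2] with q h8 h9
      unfold md
      rw [hfP q h8 (Ioo_subset_Ioc_self h9), dot_Psi h8.1.le, dot_Psi_om, mul_assoc, ← e_add]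
      congr 2
      ring
    rw [b2]
    have hi : Integrable (fun q : ℝ × ℝ => g q.2 * e (Real.sqrt q.1 * om x q.2 + q.1 * t))
        (nus.prod mu) := by
      refine Integrable.of_bound (C := B) ?_ (ae_of_all _ fun q => ?_)
      · have he : Measurable e := e_cont.measurable
        have a1 : Measurable fun q : ℝ × ℝ => Real.sqrt q.1 * om x q.2 + q.1 * t := by
          have : Measurable fun q : ℝ × ℝ => om x q.2 :=
            om_cont.measurable.comp (f := fun q : ℝ × ℝ => (x, q.2)) (by fun_prop)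
          fun_prop
        exact ((hg.comp measurable_snd).mul (he.comp a1)).aestronglyMeasurable
      · rw [norm_mul, e_norm, mul_one]
        exact hB q.2
    rw [integral_prod_symm _ hi]
    apply integral_congr_ae
    refine ae_of_all _ fun θ => ?_
    simp only
    rw [integral_const_mul, Kr_nus]
  simp_rw [e2] at key
  refine key.trans ?_
  gcongr
  unfold Wq mu I0
  rw [Measure.restrict_congr_set Ioo_ae_eq_Ioc]

end Pool.Agent.R245.PD
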