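import Mathlib
import Pool.Agent.R245.PB.Ang4
set_option autoImplicit false

/-! Tensor products of operators bounded on `L^q`. -/

namespace Pool.Agent.R245.PD

open MeasureTheory Set Complex Filter
open scoped ENNReal NNReal
open Pool.Agent.R245.PB (mu I0)

/-- the product of the angular measures -/
noncomputable def mun (n : ℕ) : Measure (Fin n → ℝ) := Measure.pi fun _ => mu

instance (n : ℕ) : IsFiniteMeasure (mun n) := by
  unfold mun
  infer_instance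

lemma prod_jm {n : ℕ} {k : Fin n → ℝ × ℝ → ℝ → ℂ}
    (hk : ∀ j, Measurable fun p : (ℝ × ℝ) × ℝ => k j p.1 p.2) :
    Measurable fun p : (Fin n → ℝ × ℝ) × (Fin n → ℝ) => ∏ j, k j (p.1 j) (p.2 j) := by
  apply Finset.measurable_prod
  intro j _
  exact (hk j).comp (f := fun p : (Fin n → ℝ × ℝ) × (Fin n → ℝ) => (p.1 j, p.2 j)) (by fun_prop)

lemma prod_bd {n : ℕ} {k : Fin n → ℝ × ℝ → ℝ → ℂ} {B : ℝ} (hB : ∀ j x θ, ‖k j x θ‖ ≤ B)
    (x : Fin n → ℝ × ℝ) (θ : Fin n → ℝ) : ‖∏ j, k j (x j) (θ j)‖ ≤ B ^ n := by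
  rw [norm_prod]
  calc ∏ j, ‖k j (x j) (θ j)‖ ≤ ∏ _j : Fin n, B :=
        Finset.prod_le_prod (fun _ _ => norm_nonneg _) fun j _ => hB j _ _
    _ = B ^ n := by simp

theorem tens {q : ℝ} (hq : 0 < q) {B : ℝ} : ∀ (n : ℕ) (k : Fin n → ℝ × ℝ → ℝ → ℂ)
    (A : Fin n → ℝ≥0∞), (∀ j, Measurable fun p : (ℝ × ℝ) × ℝ => k j p.1 p.2) →
    (∀ j x θ, ‖k j x θ‖ ≤ B) →
    (∀ j (g : ℝ → ℂ), Measurable g → (∃ M, ∀ θ, ‖g θ‖ ≤ M) →
      ∫⁻ x : ℝ × ℝ, ‖∫ θ, g θ * k j x θ ∂mu‖ₑ ^ q ≤ A j * ∫⁻ θ, ‖g θ‖ₑ ^ q ∂mu) →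
    ∀ (G : (Fin n → ℝ) → ℂ) (M : ℝ), Measurable G → (∀ θ, ‖G θ‖ ≤ M) →
    ∫⁻ x : Fin n → ℝ × ℝ, ‖∫ θ, G θ * ∏ j, k j (x j) (θ j) ∂(mun n)‖ₑ ^ q ≤
      (∏ j, A j) * ∫⁻ θ, ‖G θ‖ₑ ^ q ∂(mun n) := by
  intro n
  induction n with
  | zero =>
    intro k A hk hB hA G M hG hM
    unfold mun
    rw [volume_pi, Measure.pi_of_empty (fun _ : Fin 0 => mu)]
    simp
  | succ n ih =>
    intro k A hk hB hA G M hG hM
    obtain ⟨k', hk'⟩ : ∃ k' : Fin n → ℝ × ℝ → ℝ → ℂ, k' = fun j => k j.succ := ⟨_, rfl⟩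
    have kk : ∀ j, Measurable fun p : (ℝ × ℝ) × ℝ => k' j p.1 p.2 := fun j => by
      rw [hk']; exact hk j.succ
    have kB : ∀ j x θ, ‖k' j x θ‖ ≤ B := fun j x θ => by rw [hk']; exact hB j.succ x θ
    obtain ⟨ψ, hψ⟩ : ∃ ψ : ℝ × (Fin n → ℝ) → (Fin (n + 1) → ℝ),
      ψ = (MeasurableEquiv.piFinSuccAbove (fun _ : Fin (n + 1) => ℝ) 0).symm := ⟨_, rfl⟩
    have hψm : Measurable ψ := by
      rw [hψ]
      exact MeasurableEquiv.measurable _
    have hmp : MeasurePreserving ψ (mu.prod (mun n)) (mun (n + 1)) := by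
      rw [hψ]
      exact (measurePreserving_piFinSuccAbove (fun _ : Fin (n + 1) => mu) 0).symm
    have hψe : MeasurableEmbedding ψ := by
      rw [hψ]
      exact MeasurableEquiv.measurableEmbedding _
    have h0 : ∀ p, ψ p 0 = p.1 := by
      intro p
      rw [hψ]
      simp [MeasurableEquiv.piFinSuccAbove_symm_apply, Fin.insertNthEquiv]
    have hs : ∀ p i, ψ p (Fin.succ i) = p.2 i := by
      intro p i
      rw [hψ]
      simp [MeasurableEquiv.piFinSuccAbove_symm_apply, Fin.insertNthEquiv]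
    -- the physical variables
    have h1 := (measurePreserving_piFinSuccAbove
      (fun _ : Fin (n + 1) => (volume : Measure (ℝ × ℝ))) 0).symm
    obtain ⟨χ, hχ⟩ : ∃ χ : (ℝ × ℝ) × (Fin n → ℝ × ℝ) → (Fin (n + 1) → ℝ × ℝ),
      χ = (MeasurableEquiv.piFinSuccAbove (fun _ : Fin (n + 1) => ℝ × ℝ) 0).symm := ⟨_, rfl⟩
    have hχ0 : ∀ p, χ p 0 = p.1 := by
      intro p
      rw [hχ]
      simp [MeasurableEquiv.piFinSuccAbove_symm_apply, Fin.insertNthEquiv]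
    have hχs : ∀ p i, χ p (Fin.succ i) = p.2 i := by
      intro p i
      rw [hχ]
      simp [MeasurableEquiv.piFinSuccAbove_symm_apply, Fin.insertNthEquiv]
    -- the inner function
    obtain ⟨H, hH⟩ : ∃ H : (Fin n → ℝ × ℝ) → ℝ → ℂ, H = fun x' θ0 =>
      ∫ θ', G (ψ (θ0, θ')) * ∏ j, k' j (x' j) (θ' j) ∂(mun n) := ⟨_, rfl⟩
    have hHj : Measurable fun w : ((Fin n → ℝ × ℝ) × ℝ) × (Fin n → ℝ) =>
        G (ψ (w.1.2, w.2)) * ∏ j, k' j (w.1.1 j) (w.2 j) := by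
      have a1 : Measurable fun w : ((Fin n → ℝ × ℝ) × ℝ) × (Fin n → ℝ) => G (ψ (w.1.2, w.2)) :=
        hG.comp (hψm.comp (f := fun w : ((Fin n → ℝ × ℝ) × ℝ) × (Fin n → ℝ) => (w.1.2, w.2))
          (by fun_prop))
      have a2 := (prod_jm kk).comp
        (f := fun w : ((Fin n → ℝ × ℝ) × ℝ) × (Fin n → ℝ) => (w.1.1, w.2)) (by fun_prop)
      exact a1.mul a2
    have hHm : Measurable fun w : (Fin n → ℝ × ℝ) × ℝ => H w.1 w.2 := by
      rw [hH]
      exact (StronglyMeasurable.integral_prod_right' (ν := mun n) hHj.stronglyMeasurable).measurable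
    have hB0 : 0 ≤ M := (norm_nonneg _).trans (hM 0)
    have hHb : ∀ x' θ0, ‖H x' θ0‖ ≤ M * B ^ n * (mun n).real univ := by
      intro x' θ0
      rw [hH]
      apply norm_integral_le_of_norm_le_const
      refine ae_of_all _ fun θ' => ?_
      rw [norm_mul]
      exact mul_le_mul (hM _) (prod_bd kB _ _) (norm_nonneg _) hB0
    have key : ∀ (x0 : ℝ × ℝ) (x' : Fin n → ℝ × ℝ),
        ∫ θ, G θ * ∏ j, k j (χ (x0, x') j) (θ j) ∂(mun (n + 1)) =
          ∫ θ0, H x' θ0 * k 0 x0 θ0 ∂mu := by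
      intro x0 x'
      rw [← hmp.integral_comp hψe]
      have e1 : ∀ p : ℝ × (Fin n → ℝ), G (ψ p) * ∏ j, k j (χ (x0, x') j) (ψ p j) =
          (G (ψ p) * ∏ j, k' j (x' j) (p.2 j)) * k 0 x0 p.1 := by
        intro p
        rw [Fin.prod_univ_succ, h0, hχ0, hk']
        simp only [hs, hχs]
        ring
      simp_rw [e1]
      have hi : Integrable (fun p : ℝ × (Fin n → ℝ) =>
          (G (ψ p) * ∏ j, k' j (x' j) (p.2 j)) * k 0 x0 p.1) (mu.prod (mun n)) := by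
        refine Integrable.of_bound (C := M * B ^ n * B) ?_ (ae_of_all _ fun p => ?_)
        · have a1 : Measurable fun p : ℝ × (Fin n → ℝ) => G (ψ p) := hG.comp hψm
          have a2 := (prod_jm kk).comp (f := fun p : ℝ × (Fin n → ℝ) => (x', p.2)) (by fun_prop)
          have a3 := (hk 0).comp (f := fun p : ℝ × (Fin n → ℝ) => (x0, p.1)) (by fun_prop)
          exact ((a1.mul a2).mul a3).aestronglyMeasurable
        · rw [norm_mul, norm_mul]
          have b1 := hM (ψ p)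
          have b2 := prod_bd kB x' p.2
          have b3 := hB 0 x0 p.1
          have hBB : 0 ≤ B ^ n := (norm_nonneg _).trans b2
          gcongr
      rw [integral_prod _ hi]
      apply integral_congr_ae
      refine ae_of_all _ fun θ0 => ?_
      simp only
      rw [integral_mul_const, hH]
    rw [volume_pi, ← h1.lintegral_comp_emb (MeasurableEquiv.measurableEmbedding _)]
    have e2 : ∀ p : (ℝ × ℝ) × (Fin n → ℝ × ℝ), ‖∫ θ, G θ * ∏ j, k j
        ((MeasurableEquiv.piFinSuccAbove (fun _ : Fin (n + 1) => ℝ × ℝ) 0).symm p j) (θ j)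
          ∂(mun (n + 1))‖ₑ ^ q = ‖∫ θ0, H p.2 θ0 * k 0 p.1 θ0 ∂mu‖ₑ ^ q := by
      intro p
      rw [← key p.1 p.2, hχ]
    simp_rw [e2]
    have hLm : Measurable fun p : (ℝ × ℝ) × (Fin n → ℝ × ℝ) =>
        ‖∫ θ0, H p.2 θ0 * k 0 p.1 θ0 ∂mu‖ₑ ^ q := by
      have a1 : Measurable fun w : ((ℝ × ℝ) × (Fin n → ℝ × ℝ)) × ℝ =>
          H w.1.2 w.2 * k 0 w.1.1 w.2 := by
        have b1 := hHm.comp (f := fun w : ((ℝ × ℝ) × (Fin n → ℝ × ℝ)) × ℝ => (w.1.2, w.2))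
          (by fun_prop)
        have b2 := (hk 0).comp (f := fun w : ((ℝ × ℝ) × (Fin n → ℝ × ℝ)) × ℝ => (w.1.1, w.2))
          (by fun_prop)
        exact b1.mul b2
      exact ((StronglyMeasurable.integral_prod_right' (ν := mu)
        a1.stronglyMeasurable).measurable).enorm.pow_const q
    rw [lintegral_prod_symm _ hLm.aemeasurable, ← volume_pi]
    have hHq : Measurable fun w : (Fin n → ℝ × ℝ) × ℝ => ‖H w.1 w.2‖ₑ ^ q := hHm.enorm.pow_const q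
    calc ∫⁻ x' : Fin n → ℝ × ℝ, ∫⁻ x0 : ℝ × ℝ, ‖∫ θ0, H x' θ0 * k 0 x0 θ0 ∂mu‖ₑ ^ q
        ≤ ∫⁻ x' : Fin n → ℝ × ℝ, A 0 * ∫⁻ θ0, ‖H x' θ0‖ₑ ^ q ∂mu := by
          apply lintegral_mono
          intro x'
          exact hA 0 (H x') (hHm.comp (f := fun θ : ℝ => (x', θ)) (by fun_prop))
            ⟨_, fun θ => hHb x' θ⟩
      _ = A 0 * ∫⁻ θ0, (∫⁻ x' : Fin n → ℝ × ℝ, ‖H x' θ0‖ₑ ^ q) ∂mu := by
          have hm2 : Measurable fun x' : Fin n → ℝ × ℝ => ∫⁻ θ0, ‖H x' θ0‖ₑ ^ q ∂mu :=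
            hHq.lintegral_prod_right'
          rw [lintegral_const_mul _ hm2, lintegral_lintegral_swap hHq.aemeasurable]
      _ ≤ A 0 * ∫⁻ θ0, ((∏ j, A (Fin.succ j)) *
            ∫⁻ θ', ‖G (ψ (θ0, θ'))‖ₑ ^ q ∂(mun n)) ∂mu := by
          gcongr with θ0
          have := ih k' (fun j => A j.succ) kk kB (fun j => by rw [hk']; exact hA j.succ)
            (fun θ' => G (ψ (θ0, θ'))) M
            (hG.comp (hψm.comp (f := fun θ' : Fin n → ℝ => (θ0, θ')) (by fun_prop)))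
            (fun θ' => hM _)
          rw [hH]
          exact this
      _ = (∏ j, A j) * ∫⁻ θ, ‖G θ‖ₑ ^ q ∂(mun (n + 1)) := by
          have hGq : Measurable fun p : ℝ × (Fin n → ℝ) => ‖G (ψ p)‖ₑ ^ q :=
            (hG.comp hψm).enorm.pow_const q
          have hm3 : Measurable fun θ0 : ℝ => ∫⁻ θ', ‖G (ψ (θ0, θ'))‖ₑ ^ q ∂(mun n) :=
            hGq.lintegral_prod_right'
          rw [lintegral_const_mul _ hm3, ← lintegral_prod _ hGq.aemeasurable,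
            hmp.lintegral_comp_emb hψe (fun θ => ‖G θ‖ₑ ^ q), Fin.prod_univ_succ, mul_assoc]

end Pool.Agent.R245.PD
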