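import Mathlib
import Pool.Agent.R245.PD.D2
import Pool.Agent.R245.PD.D3
import Pool.Agent.H438R2.PD.A5
import Pool.Agent.TH277.CB.B
set_option autoImplicit false

/-! The fixed time estimate for superpositions of truncated pencils. -/

namespace Pool.Agent.R245.PD

open MeasureTheory Set Complex Filter
open scoped ENNReal NNReal
open Pool.Agent.R244.PQ (e e_norm e_add e_neg e_cont dot dec_lint)
open Pool.Agent.R245.PB (mu I0)

lemma dec_two {z w γ : ℝ} (hz : 1 ≤ z) (h : z ≤ 2 * w) (h0 : 0 ≤ γ) (h1 : γ ≤ 1) :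
    w ^ (-γ) ≤ 2 * z ^ (-γ) := by
  have hz2 : 0 < z / 2 := by linarith
  calc w ^ (-γ) ≤ (z / 2) ^ (-γ) :=
        Real.rpow_le_rpow_of_nonpos hz2 (by linarith) (by linarith)
    _ = (2:ℝ) ^ γ * z ^ (-γ) := by
        rw [Real.div_rpow (by linarith) (by norm_num), Real.rpow_neg (by norm_num : (0:ℝ) ≤ 2),
          div_inv_eq_mul, mul_comm]
    _ ≤ 2 * z ^ (-γ) := by
        gcongr
        calc (2:ℝ) ^ γ ≤ (2:ℝ) ^ (1:ℝ) := Real.rpow_le_rpow_of_exponent_le (by norm_num) h1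
          _ = 2 := Real.rpow_one 2

lemma conv_pt {x y z γ γ' : ℝ} (hx : 1 ≤ x) (hy : 1 ≤ y) (hz : 1 ≤ z) (hxy : z ≤ x + y)
    (h0 : 0 ≤ γ') (h1 : γ' < γ) (h2 : γ' ≤ 1) :
    x ^ (-γ) * y⁻¹ ≤ 2 * z ^ (-γ') * (x ^ (-(1 + (γ - γ'))) + y ^ (-(1 + (γ - γ')))) := by
  have hx0 : 0 < x := by linarith
  have hy0 : 0 < y := by linarith
  have hz0 : 0 < z := by linarith
  rcases le_total y x with h | h
  · have e1 : x ^ (-γ) = x ^ (-γ') * x ^ (-(γ - γ')) := by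
      rw [← Real.rpow_add hx0]
      congr 1
      ring
    have e2 : y ^ (-(1 + (γ - γ'))) = y ^ (-(γ - γ')) * y⁻¹ := by
      rw [← Real.rpow_neg_one, ← Real.rpow_add hy0]
      congr 1
      ring
    have h3 : x ^ (-γ') ≤ 2 * z ^ (-γ') := dec_two hz (by linarith) h0 h2
    have h4 : x ^ (-(γ - γ')) ≤ y ^ (-(γ - γ')) :=
      Real.rpow_le_rpow_of_nonpos hy0 h (by linarith)
    calc x ^ (-γ) * y⁻¹ = x ^ (-γ') * x ^ (-(γ - γ')) * y⁻¹ := by rw [e1]
      _ ≤ (2 * z ^ (-γ')) * y ^ (-(γ - γ')) * y⁻¹ := by gcongr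
      _ = 2 * z ^ (-γ') * (0 + y ^ (-(1 + (γ - γ')))) := by rw [e2]; ring
      _ ≤ _ := by gcongr; positivity
  · have e1 : y⁻¹ = y ^ (-γ') * y ^ (-(1 - γ')) := by
      rw [← Real.rpow_neg_one, ← Real.rpow_add hy0]
      congr 1
      ring
    have e2 : x ^ (-(1 + (γ - γ'))) = x ^ (-γ) * x ^ (-(1 - γ')) := by
      rw [← Real.rpow_add hx0]
      congr 1
      ring
    have h3 : y ^ (-γ') ≤ 2 * z ^ (-γ') := dec_two hz (by linarith) h0 h2
    have h4 : y ^ (-(1 - γ')) ≤ x ^ (-(1 - γ')) :=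
      Real.rpow_le_rpow_of_nonpos hx0 h (by linarith)
    calc x ^ (-γ) * y⁻¹ = x ^ (-γ) * (y ^ (-γ') * y ^ (-(1 - γ'))) := by rw [e1]
      _ ≤ x ^ (-γ) * ((2 * z ^ (-γ')) * x ^ (-(1 - γ'))) := by gcongr
      _ = 2 * z ^ (-γ') * (x ^ (-(1 + (γ - γ'))) + 0) := by rw [e2]; ring
      _ ≤ _ := by gcongr; positivity

lemma conv_w {γ γ' : ℝ} (h0 : 0 ≤ γ') (h1 : γ' < γ) (h2 : γ' ≤ 1) : ∃ C : ℝ, 0 < C ∧
    ∀ t : ℝ, ∫⁻ ν : ℝ, ENNReal.ofReal ((1 + |t - ν|) ^ (-γ)) * ENNReal.ofReal (wt ν) ≤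
      ENNReal.ofReal (C * (1 + |t|) ^ (-γ')) := by
  obtain ⟨D, hD⟩ : ∃ D, D = ∫⁻ t : ℝ, ENNReal.ofReal ((1 + |t|) ^ (-(1 + (γ - γ')))) := ⟨_, rfl⟩
  have hDt : D < ∞ := by
    rw [hD]
    exact dec_lint (by linarith)
  refine ⟨36 * ((D + D).toReal + 1), by positivity, fun t => ?_⟩
  have hm : Measurable fun ν : ℝ => ENNReal.ofReal ((1 + |t - ν|) ^ (-(1 + (γ - γ')))) := by
    fun_prop
  calc ∫⁻ ν : ℝ, ENNReal.ofReal ((1 + |t - ν|) ^ (-γ)) * ENNReal.ofReal (wt ν)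
      ≤ ∫⁻ ν : ℝ, ENNReal.ofReal (36 * (1 + |t|) ^ (-γ')) *
          (ENNReal.ofReal ((1 + |t - ν|) ^ (-(1 + (γ - γ')))) +
            ENNReal.ofReal ((1 + |ν|) ^ (-(1 + (γ - γ'))))) := by
        apply lintegral_mono
        intro ν
        simp only
        rw [← ENNReal.ofReal_mul (by positivity), ← ENNReal.ofReal_add (by positivity)
          (by positivity), ← ENNReal.ofReal_mul (by positivity)]
        apply ENNReal.ofReal_le_ofReal
        have h := conv_pt (x := 1 + |t - ν|) (y := 1 + |ν|) (z := 1 + |t|) (γ := γ) (γ' := γ')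
          (by linarith [abs_nonneg (t - ν)]) (by linarith [abs_nonneg ν])
          (by linarith [abs_nonneg t]) (by
            have : |t| ≤ |t - ν| + |ν| := by
              calc |t| = |(t - ν) + ν| := by ring_nf
                _ ≤ _ := abs_add_le _ _
            linarith) h0 h1 h2
        unfold wt
        calc (1 + |t - ν|) ^ (-γ) * (18 / (1 + |ν|)) =
              18 * ((1 + |t - ν|) ^ (-γ) * (1 + |ν|)⁻¹) := by ring
          _ ≤ 18 * (2 * (1 + |t|) ^ (-γ') * ((1 + |t - ν|) ^ (-(1 + (γ - γ'))) +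
              (1 + |ν|) ^ (-(1 + (γ - γ'))))) := by gcongr
          _ = _ := by ring
    _ = ENNReal.ofReal (36 * (1 + |t|) ^ (-γ')) * (D + D) := by
        rw [lintegral_const_mul' _ _ ENNReal.ofReal_ne_top, lintegral_add_left hm]
        congr 2
        · rw [hD]
          exact lintegral_sub_left_eq_self
            (fun ν : ℝ => ENNReal.ofReal ((1 + |ν|) ^ (-(1 + (γ - γ'))))) t
        · rw [hD]
    _ ≤ ENNReal.ofReal (36 * (1 + |t|) ^ (-γ')) * ENNReal.ofReal ((D + D).toReal + 1) := by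
        gcongr
        calc D + D = ENNReal.ofReal (D + D).toReal := (ENNReal.ofReal_toReal
              (ENNReal.add_ne_top.2 ⟨hDt.ne, hDt.ne⟩)).symm
          _ ≤ _ := ENNReal.ofReal_le_ofReal (by linarith)
    _ = _ := by
        rw [← ENNReal.ofReal_mul (by positivity)]
        congr 1
        ring

lemma cf_enorm (σ ν : ℝ) : ‖cf σ ν‖ₑ ≤ ENNReal.ofReal (wt ν) := by
  rw [← ofReal_norm]
  exact ENNReal.ofReal_le_ofReal (cf_le σ ν)

lemma Ks_le (σ u t : ℝ) : ‖Ks σ u t‖ ≤ 9 := by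
  unfold Ks
  have := norm_setIntegral_le_of_norm_le_const (μ := volume) (s := Ioc (0:ℝ) 9)
    (f := fun s => (ct σ s : ℂ) * ((1 / 2 : ℂ) * e (Real.sqrt s * u + s * t))) (C := 1) (by simp)
    (fun s _ => by
      rw [norm_mul, norm_mul, e_norm, mul_one]
      have := ct_norm σ s
      norm_num
      have h2 : ‖(ct σ s : ℂ)‖ * (1 / 2) ≤ 1 := by linarith [norm_nonneg (ct σ s : ℂ)]
      simpa using h2)
  simpa using this

lemma enorm_prod {n : ℕ} (f : Fin n → ℂ) : ‖∏ j, f j‖ₑ = ∏ j, ‖f j‖ₑ := by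
  rw [← ofReal_norm, norm_prod, ENNReal.ofReal_prod_of_nonneg fun j _ => norm_nonneg _]
  exact Finset.prod_congr rfl fun j _ => ofReal_norm _

section

variable {n : ℕ} {S : Type} [MeasurableSpace S] {m : Measure S} [SFinite m]

/-- the product kernel -/
noncomputable def WW (σ : Fin n → (Fin n → ℝ) × S → ℝ) (t : ℝ) (x : Fin n → ℝ × ℝ)
    (ν : Fin n → ℝ) (p : (Fin n → ℝ) × S) : ℂ :=
  ∏ j, (cf (σ j p) (ν j) * Kr (om (x j) (p.1 j)) (t - ν j))

lemma WW_meas {σ : Fin n → (Fin n → ℝ) × S → ℝ} (hσ : ∀ j, Measurable (σ j)) (t : ℝ) :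
    Measurable fun w : (Fin n → ℝ × ℝ) × (Fin n → ℝ) × ((Fin n → ℝ) × S) =>
      WW σ t w.1 w.2.1 w.2.2 := by
  unfold WW
  apply Finset.measurable_prod
  intro j _
  have h1 : Measurable fun w : (Fin n → ℝ × ℝ) × (Fin n → ℝ) × ((Fin n → ℝ) × S) =>
      cf (σ j w.2.2) (w.2.1 j) :=
    cf_meas2.comp (f := fun w : (Fin n → ℝ × ℝ) × (Fin n → ℝ) × ((Fin n → ℝ) × S) =>
      (σ j w.2.2, w.2.1 j)) (((hσ j).comp (measurable_snd.comp measurable_snd)).prodMk (by fun_prop))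
  have h2 : Measurable fun w : (Fin n → ℝ × ℝ) × (Fin n → ℝ) × ((Fin n → ℝ) × S) =>
      om (w.1 j) (w.2.2.1 j) :=
    om_cont.measurable.comp (f := fun w : (Fin n → ℝ × ℝ) × (Fin n → ℝ) × ((Fin n → ℝ) × S) =>
      (w.1 j, w.2.2.1 j)) (by fun_prop)
  have h3 : Measurable fun w : (Fin n → ℝ × ℝ) × (Fin n → ℝ) × ((Fin n → ℝ) × S) =>
      Kr (om (w.1 j) (w.2.2.1 j)) (t - w.2.1 j) :=
    Kr_meas2.comp (f := fun w : (Fin n → ℝ × ℝ) × (Fin n → ℝ) × ((Fin n → ℝ) × S) =>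
      (om (w.1 j) (w.2.2.1 j), t - w.2.1 j)) (h2.prodMk (by fun_prop))
  exact h1.mul h3

omit [MeasurableSpace S] in
lemma WW_int : ∃ M : ℝ, 0 < M ∧ ∀ (σ : Fin n → (Fin n → ℝ) × S → ℝ) (t : ℝ)
    (x : Fin n → ℝ × ℝ) (p : (Fin n → ℝ) × S),
    ∫⁻ ν, ‖WW σ t x ν p‖ₑ ≤ ENNReal.ofReal M ^ n := by
  obtain ⟨M, hM, h⟩ := wK_fin
  refine ⟨M, hM, fun σ t x p => ?_⟩
  have hwm : Measurable fun ν : ℝ => ENNReal.ofReal (wt ν) := by
    unfold wt
    fun_prop
  calc ∫⁻ ν : Fin n → ℝ, ‖WW σ t x ν p‖ₑ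
      ≤ ∫⁻ ν : Fin n → ℝ, ∏ j, (ENNReal.ofReal (wt (ν j)) *
          ‖Kr (om (x j) (p.1 j)) (t - ν j)‖ₑ) := by
        apply lintegral_mono
        intro ν
        unfold WW
        simp only
        rw [enorm_prod]
        apply Finset.prod_le_prod'
        intro j _
        rw [enorm_mul]
        gcongr
        exact cf_enorm _ _
    _ = ∏ j, ∫⁻ ν, ENNReal.ofReal (wt ν) * ‖Kr (om (x j) (p.1 j)) (t - ν)‖ₑ := by
        have := Pool.Agent.TH277.HT.lint_pi (fun (j : Fin n) (ν : ℝ) => ENNReal.ofReal (wt ν) *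
          ‖Kr (om (x j) (p.1 j)) (t - ν)‖ₑ) (fun j => hwm.mul
          ((Kr_meas2.comp (f := fun ν : ℝ => (om (x j) (p.1 j), t - ν)) (by fun_prop)).enorm))
        exact this
    _ ≤ ∏ _j : Fin n, ENNReal.ofReal M := Finset.prod_le_prod' fun j _ => h _ _
    _ = _ := by simp

omit [MeasurableSpace S] in
lemma prodKs (σ : Fin n → (Fin n → ℝ) × S → ℝ) (t : ℝ) (x : Fin n → ℝ × ℝ)
    (p : (Fin n → ℝ) × S) :
    ∏ j, Ks (σ j p) (om (x j) (p.1 j)) t = ∫ ν, WW σ t x ν p := by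
  unfold WW
  rw [integral_fintype_prod_volume_eq_prod (fun (j : Fin n) (ν : ℝ) =>
    cf (σ j p) ν * Kr (om (x j) (p.1 j)) (t - ν))]
  exact Finset.prod_congr rfl fun j _ => Ks_eq _ _ _

/-- the swap -/
lemma swapW {σ : Fin n → (Fin n → ℝ) × S → ℝ} (hσ : ∀ j, Measurable (σ j))
    {b : (Fin n → ℝ) × S → ℂ} (hb : Integrable b ((mun n).prod m)) (hbm : Measurable b) (t : ℝ)
    (x : Fin n → ℝ × ℝ) :
    ∫ p, b p * ∏ j, Ks (σ j p) (om (x j) (p.1 j)) t ∂((mun n).prod m) =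
      ∫ ν, (∫ p, b p * WW σ t x ν p ∂((mun n).prod m)) := by
  obtain ⟨M, hM, hW⟩ := WW_int (n := n) (S := S)
  have e1 : ∀ p, b p * ∏ j, Ks (σ j p) (om (x j) (p.1 j)) t = ∫ ν, b p * WW σ t x ν p := by
    intro p
    rw [prodKs, integral_const_mul]
  simp_rw [e1]
  have hm : Measurable fun w : ((Fin n → ℝ) × S) × (Fin n → ℝ) => b w.1 * WW σ t x w.2 w.1 := by
    have a1 := (WW_meas hσ t).comp (f := fun w : ((Fin n → ℝ) × S) × (Fin n → ℝ) =>
      (x, w.2, w.1)) (by fun_prop)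
    exact (hbm.comp measurable_fst).mul a1
  apply integral_integral_swap
  refine ⟨hm.aestronglyMeasurable, ?_⟩
  unfold HasFiniteIntegral
  change ∫⁻ w : ((Fin n → ℝ) × S) × (Fin n → ℝ), ‖b w.1 * WW σ t x w.2 w.1‖ₑ
    ∂(((mun n).prod m).prod volume) < ∞
  rw [lintegral_prod _ hm.enorm.aemeasurable]
  calc ∫⁻ p, (∫⁻ ν, ‖b p * WW σ t x ν p‖ₑ) ∂((mun n).prod m)
      ≤ ∫⁻ p, ‖b p‖ₑ * ENNReal.ofReal M ^ n ∂((mun n).prod m) := by
        apply lintegral_mono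
        intro p
        simp only
        simp_rw [enorm_mul]
        rw [lintegral_const_mul' _ _ enorm_ne_top]
        gcongr
        exact hW σ t x p
    _ < ∞ := by
        rw [lintegral_mul_const _ hbm.enorm]
        exact ENNReal.mul_lt_top hb.2 (by finiteness)

/-- the inner integral is a tensor -/
lemma innerW {σ : Fin n → (Fin n → ℝ) × S → ℝ} (hσ : ∀ j, Measurable (σ j))
    {b : (Fin n → ℝ) × S → ℂ} (hb : Integrable b ((mun n).prod m)) (hbm : Measurable b) (t : ℝ)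
    (x : Fin n → ℝ × ℝ) (ν : Fin n → ℝ) :
    ∫ p, b p * WW σ t x ν p ∂((mun n).prod m) =
      ∫ θ, (∫ s, b (θ, s) * ∏ j, cf (σ j (θ, s)) (ν j) ∂m) *
        ∏ j, Kr (om (x j) (θ j)) (t - ν j) ∂(mun n) := by
  have hm : Measurable fun p : (Fin n → ℝ) × S => b p * WW σ t x ν p :=
    hbm.mul ((WW_meas hσ t).comp (f := fun p : (Fin n → ℝ) × S => (x, ν, p)) (by fun_prop))
  have hi : Integrable (fun p => b p * WW σ t x ν p) ((mun n).prod m) := by
    refine (hb.mul_const ((∏ j, (wt (ν j) * 9) : ℝ) : ℂ)).mono hm.aestronglyMeasurable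
      (ae_of_all _ fun p => ?_)
    rw [norm_mul, norm_mul]
    gcongr
    unfold WW
    rw [norm_prod, Complex.norm_real, Real.norm_eq_abs, abs_of_nonneg]
    · apply Finset.prod_le_prod (fun _ _ => norm_nonneg _)
      intro j _
      rw [norm_mul]
      exact mul_le_mul (cf_le _ _) (Kr_le _ _) (norm_nonneg _) (wt_pos _).le
    · exact Finset.prod_nonneg fun j _ => mul_nonneg (wt_pos _).le (by norm_num)
  rw [integral_prod _ hi]
  apply integral_congr_ae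
  refine ae_of_all _ fun θ => ?_
  simp only
  rw [← integral_mul_const]
  congr 1
  funext s
  unfold WW
  rw [Finset.prod_mul_distrib]
  ring

/-- The fixed time estimate for superpositions of truncated pencils. -/
theorem FTP {κ κ' q : ℝ} (h0 : 0 ≤ κ') (h1 : κ' < κ) (h2 : κ < q - 2) (h3 : κ < 2) (n : ℕ) :
    ∃ C : ℝ, 0 < C ∧ ∀ (S : Type) [MeasurableSpace S] (m : Measure S) [SFinite m]
      (b : (Fin n → ℝ) × S → ℂ) (σ : Fin n → (Fin n → ℝ) × S → ℝ) (M : ℝ≥0), Measurable b →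
      (∀ j, Measurable (σ j)) → (∀ θ, ∫⁻ s, ‖b (θ, s)‖ₑ ∂m ≤ M) → ∀ t : ℝ,
      ∫⁻ x : Fin n → ℝ × ℝ,
        ‖∫ p, b p * ∏ j, Ks (σ j p) (om (x j) (p.1 j)) t ∂((mun n).prod m)‖ₑ ^ q ≤
        ENNReal.ofReal (C * (1 + |t|) ^ (-(n * κ'))) *
          ∫⁻ θ, (∫⁻ s, ‖b (θ, s)‖ₑ ∂m) ^ q ∂(mun n) := by
  have hq : 2 < q := by linarith
  have hq0 : 0 < q := by linarith
  obtain ⟨C0, hC0, hdisc⟩ := disc (κ := κ) (q := q) (by linarith) h2 h3
  obtain ⟨C1, hC1, hconv⟩ := conv_w (γ := κ / q) (γ' := κ' / q) (by positivity)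
    (by gcongr) (by rw [div_le_one hq0]; linarith)
  refine ⟨((C0 ^ (1 / q) * C1) ^ n) ^ q, by positivity, ?_⟩
  intro S _ m _ b σ M hb hσ hM t
  obtain ⟨N, hN⟩ : ∃ N, N = ∫⁻ θ, (∫⁻ s, ‖b (θ, s)‖ₑ ∂m) ^ q ∂(mun n) := ⟨_, rfl⟩
  have hbi : Integrable b ((mun n).prod m) := by
    refine ⟨hb.aestronglyMeasurable, ?_⟩
    unfold HasFiniteIntegral
    rw [lintegral_prod _ hb.enorm.aemeasurable]
    calc ∫⁻ θ, ∫⁻ s, ‖b (θ, s)‖ₑ ∂m ∂(mun n) ≤ ∫⁻ _θ : Fin n → ℝ, (M:ℝ≥0∞) ∂(mun n) :=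
          lintegral_mono fun θ => hM θ
      _ < ∞ := by
          rw [lintegral_const]
          exact ENNReal.mul_lt_top ENNReal.coe_lt_top (measure_lt_top _ _)
  obtain ⟨E, hE⟩ : ∃ E : (Fin n → ℝ × ℝ) → (Fin n → ℝ) → ℂ, E = fun x ν =>
    ∫ p, b p * WW σ t x ν p ∂((mun n).prod m) := ⟨_, rfl⟩
  have hEm : Measurable (Function.uncurry fun x ν => ‖E x ν‖ₑ) := by
    have a1 : Measurable fun w : ((Fin n → ℝ × ℝ) × (Fin n → ℝ)) × ((Fin n → ℝ) × S) =>
        b w.2 * WW σ t w.1.1 w.1.2 w.2 :=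
      (hb.comp measurable_snd).mul ((WW_meas hσ t).comp
        (f := fun w : ((Fin n → ℝ × ℝ) × (Fin n → ℝ)) × ((Fin n → ℝ) × S) =>
          (w.1.1, w.1.2, w.2)) (by fun_prop))
    have a2 := (StronglyMeasurable.integral_prod_right' (ν := (mun n).prod m)
      a1.stronglyMeasurable).measurable
    rw [hE]
    exact a2.enorm
  -- the estimate for fixed frequencies
  have hfix : ∀ ν : Fin n → ℝ, (∫⁻ x, ‖E x ν‖ₑ ^ q) ^ (1 / q) ≤
      (∏ j, (ENNReal.ofReal (C0 ^ (1 / q)) * (ENNReal.ofReal ((1 + |t - ν j|) ^ (-(κ / q))) *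
        ENNReal.ofReal (wt (ν j))))) * N ^ (1 / q) := by
    intro ν
    obtain ⟨G, hG⟩ : ∃ G : (Fin n → ℝ) → ℂ, G = fun θ =>
      ∫ s, b (θ, s) * ∏ j, cf (σ j (θ, s)) (ν j) ∂m := ⟨_, rfl⟩
    have hcm : Measurable fun p : (Fin n → ℝ) × S => b p * ∏ j, cf (σ j p) (ν j) := by
      apply hb.mul
      apply Finset.measurable_prod
      intro j _
      exact cf_meas2.comp (f := fun p : (Fin n → ℝ) × S => (σ j p, ν j))
        ((hσ j).prodMk measurable_const)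
    have hGm : Measurable G := by
      rw [hG]
      exact (StronglyMeasurable.integral_prod_right' (ν := m) hcm.stronglyMeasurable).measurable
    obtain ⟨w, hw⟩ : ∃ w : ℝ≥0∞, w = ∏ j, ENNReal.ofReal (wt (ν j)) := ⟨_, rfl⟩
    have hwt : w ≠ ∞ := by
      rw [hw]
      exact ENNReal.prod_ne_top fun j _ => ENNReal.ofReal_ne_top
    have hGe : ∀ θ, ‖G θ‖ₑ ≤ w * ∫⁻ s, ‖b (θ, s)‖ₑ ∂m := by
      intro θ
      rw [hG, hw]
      calc ‖∫ s, b (θ, s) * ∏ j, cf (σ j (θ, s)) (ν j) ∂m‖ₑ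
          ≤ ∫⁻ s, ‖b (θ, s) * ∏ j, cf (σ j (θ, s)) (ν j)‖ₑ ∂m := enorm_integral_le_lintegral_enorm _
        _ ≤ ∫⁻ s, (∏ j, ENNReal.ofReal (wt (ν j))) * ‖b (θ, s)‖ₑ ∂m := by
            apply lintegral_mono
            intro s
            simp only
            rw [enorm_mul, enorm_prod, mul_comm]
            gcongr with j _
            exact cf_enorm _ _
        _ = _ := by rw [lintegral_const_mul' _ _ (by rw [← hw]; exact hwt)]
    have hGb : ∀ θ, ‖G θ‖ ≤ (w * M).toReal := by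
      intro θ
      rw [← toReal_enorm]
      apply ENNReal.toReal_mono (ENNReal.mul_ne_top hwt ENNReal.coe_ne_top)
      refine (hGe θ).trans ?_
      gcongr
      exact hM θ
    have key := tens (q := q) hq0 (B := 9) n (fun j x θ => Kr (om x θ) (t - ν j))
      (fun j => ENNReal.ofReal (C0 * (1 + |t - ν j|) ^ (-κ)))
      (fun j => Kr_meas2.comp (f := fun p : (ℝ × ℝ) × ℝ => (om p.1 p.2, t - ν j))
        (om_cont.measurable.prodMk measurable_const))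
      (fun j x θ => Kr_le _ _) (fun j g hg hgb => hdisc (t - ν j) g hg hgb) G _ hGm hGb
    have hGq : ∫⁻ θ, ‖G θ‖ₑ ^ q ∂(mun n) ≤ w ^ q * N := by
      rw [hN, ← lintegral_const_mul' _ _ (ENNReal.rpow_ne_top_of_nonneg hq0.le hwt)]
      apply lintegral_mono
      intro θ
      simp only
      rw [← ENNReal.mul_rpow_of_nonneg _ _ hq0.le]
      exact ENNReal.rpow_le_rpow (hGe θ) hq0.le
    have h5 : ∫⁻ x, ‖E x ν‖ₑ ^ q ≤
        (∏ j, ENNReal.ofReal (C0 * (1 + |t - ν j|) ^ (-κ))) * (w ^ q * N) := by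
      calc ∫⁻ x, ‖E x ν‖ₑ ^ q = ∫⁻ x : Fin n → ℝ × ℝ,
            ‖∫ θ, G θ * ∏ j, Kr (om (x j) (θ j)) (t - ν j) ∂(mun n)‖ₑ ^ q := by
              rw [hE, hG]
              simp_rw [innerW hσ hbi hb t]
        _ ≤ _ := key.trans (by gcongr)
    calc (∫⁻ x, ‖E x ν‖ₑ ^ q) ^ (1 / q)
        ≤ ((∏ j, ENNReal.ofReal (C0 * (1 + |t - ν j|) ^ (-κ))) * (w ^ q * N)) ^ (1 / q) :=
          ENNReal.rpow_le_rpow h5 (by positivity)
      _ = (∏ j, ENNReal.ofReal (C0 * (1 + |t - ν j|) ^ (-κ)) ^ (1 / q)) *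
            (w * N ^ (1 / q)) := by
          rw [ENNReal.mul_rpow_of_nonneg _ _ (by positivity),
            ENNReal.mul_rpow_of_nonneg _ _ (by positivity), ← ENNReal.rpow_mul,
            mul_one_div_cancel hq0.ne', ENNReal.rpow_one,
            ENNReal.prod_rpow_of_nonneg (by positivity)]
      _ = _ := by
          rw [← mul_assoc, hw, ← Finset.prod_mul_distrib]
          congr 1
          apply Finset.prod_congr rfl
          intro j _
          rw [← mul_assoc]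
          congr 1
          rw [ENNReal.ofReal_rpow_of_nonneg (by positivity) (by positivity),
            ← ENNReal.ofReal_mul (by positivity), Real.mul_rpow (by positivity) (by positivity),
            ← Real.rpow_mul (by positivity)]
          congr 3
          ring
  have e3 : ∀ x : Fin n → ℝ × ℝ,
      ‖∫ p, b p * ∏ j, Ks (σ j p) (om (x j) (p.1 j)) t ∂((mun n).prod m)‖ₑ ≤ ∫⁻ ν, ‖E x ν‖ₑ := by
    intro x
    rw [swapW hσ hbi hb t x, hE]
    exact enorm_integral_le_lintegral_enorm _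
  have hwm : Measurable fun ν : ℝ => ENNReal.ofReal (wt ν) := by
    unfold wt
    fun_prop
  calc ∫⁻ x : Fin n → ℝ × ℝ,
        ‖∫ p, b p * ∏ j, Ks (σ j p) (om (x j) (p.1 j)) t ∂((mun n).prod m)‖ₑ ^ q
      ≤ ∫⁻ x : Fin n → ℝ × ℝ, (∫⁻ ν, ‖E x ν‖ₑ) ^ q :=
        lintegral_mono fun x => ENNReal.rpow_le_rpow (e3 x) hq0.le
    _ ≤ (∫⁻ ν, (∫⁻ x, ‖E x ν‖ₑ ^ q) ^ (1 / q)) ^ q :=
        Pool.Agent.H438R2.PD.A5.mink volume volume (fun x ν => ‖E x ν‖ₑ) hEm q (by linarith)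
    _ ≤ (∫⁻ ν : Fin n → ℝ, (∏ j, (ENNReal.ofReal (C0 ^ (1 / q)) *
          (ENNReal.ofReal ((1 + |t - ν j|) ^ (-(κ / q))) *
          ENNReal.ofReal (wt (ν j))))) * N ^ (1 / q)) ^ q :=
        ENNReal.rpow_le_rpow (lintegral_mono hfix) hq0.le
    _ = ((∏ _j : Fin n, ENNReal.ofReal (C0 ^ (1 / q)) *
          ∫⁻ ν : ℝ, (ENNReal.ofReal ((1 + |t - ν|) ^ (-(κ / q))) *
          ENNReal.ofReal (wt ν))) * N ^ (1 / q)) ^ q := by
        congr 1
        have m1 : Measurable fun ν : ℝ => ENNReal.ofReal (C0 ^ (1 / q)) *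
            (ENNReal.ofReal ((1 + |t - ν|) ^ (-(κ / q))) * ENNReal.ofReal (wt ν)) := by
          have : Measurable fun ν : ℝ => ENNReal.ofReal ((1 + |t - ν|) ^ (-(κ / q))) := by fun_prop
          exact (this.mul hwm).const_mul _
        have m2 : Measurable fun ν : Fin n → ℝ => ∏ j, (ENNReal.ofReal (C0 ^ (1 / q)) *
          (ENNReal.ofReal ((1 + |t - ν j|) ^ (-(κ / q))) * ENNReal.ofReal (wt (ν j)))) :=
          Finset.measurable_prod _ fun j _ => m1.comp (measurable_pi_apply j)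
        rw [lintegral_mul_const _ m2, Pool.Agent.TH277.HT.lint_pi (fun (_ : Fin n) (ν : ℝ) =>
          ENNReal.ofReal (C0 ^ (1 / q)) *
            (ENNReal.ofReal ((1 + |t - ν|) ^ (-(κ / q))) * ENNReal.ofReal (wt ν)))
            (fun _ => m1)]
        congr 1
        apply Finset.prod_congr rfl
        intro j _
        rw [lintegral_const_mul' _ _ ENNReal.ofReal_ne_top]
    _ ≤ ((∏ _j : Fin n, ENNReal.ofReal (C0 ^ (1 / q)) *
          ENNReal.ofReal (C1 * (1 + |t|) ^ (-(κ' / q)))) * N ^ (1 / q)) ^ q := by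
        gcongr
        exact hconv t
    _ = _ := by
        rw [ENNReal.mul_rpow_of_nonneg _ _ hq0.le, ← ENNReal.rpow_mul,
          one_div_mul_cancel hq0.ne', ENNReal.rpow_one, hN]
        congr 1
        rw [← ENNReal.ofReal_mul (by positivity), Finset.prod_const, Finset.card_univ,
          Fintype.card_fin, ← ENNReal.ofReal_pow (by positivity),
          ENNReal.ofReal_rpow_of_nonneg (by positivity) hq0.le]
        congr 1
        rw [← mul_assoc, mul_pow, Real.mul_rpow (by positivity) (by positivity)]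
        congr 1
        rw [← Real.rpow_natCast, ← Real.rpow_mul (by positivity), ← Real.rpow_mul (by positivity)]
        congr 1
        field_simp

end

end Pool.Agent.R245.PD
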