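import Mathlib
import Pool.Agent.R245.PD.D4
set_option autoImplicit false

/-! Coordinates: polar coordinates in every block. -/

namespace Pool.Agent.R245.PD

open MeasureTheory Set Complex Filter
open scoped ENNReal NNReal
open Pool.Agent.R244.PQ (e e_norm e_add e_neg e_cont dot)
open Pool.Agent.R245.PB (mu I0)
open Pool.Agent.TH277.CB (Phi Phi_mp Q2 Q2_meas)

/-- the part of the ray inside the square -/
def ES (p : ℝ × ℝ) : Set (ℝ × ℝ) :=
  {w | w.2 ∈ Ioo (0:ℝ) 3 ∧ p + (w.2 * Real.cos w.1, w.2 * Real.sin w.1) ∈ Q2}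

lemma ES_meas (p : ℝ × ℝ) : MeasurableSet (ES p) := by
  have h1 : Measurable fun w : ℝ × ℝ => p + (w.2 * Real.cos w.1, w.2 * Real.sin w.1) := by
    fun_prop
  exact (measurable_snd measurableSet_Ioo).inter (h1 Q2_meas)

/-- the exit radius -/
noncomputable def exr (p : ℝ × ℝ) (θ : ℝ) : ℝ := (volume (Prod.mk θ ⁻¹' ES p)).toReal

lemma exr_meas (p : ℝ × ℝ) : Measurable (exr p) := by
  unfold exr
  exact (measurable_measure_prodMk_left (ES_meas p)).ennreal_toReal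

lemma seg {p c r r' : ℝ} (h1 : -1 ≤ p) (h2 : p ≤ 1) (h3 : -1 ≤ p + r * c) (h4 : p + r * c ≤ 1)
    (hr' : 0 ≤ r') (hr : r' ≤ r) : -1 ≤ p + r' * c ∧ p + r' * c ≤ 1 := by
  rcases le_total 0 c with h | h
  · have a1 : r' * c ≤ r * c := by gcongr
    have a2 : 0 ≤ r' * c := by positivity
    constructor <;> linarith
  · have a1 : r * c ≤ r' * c := mul_le_mul_of_nonpos_right hr h
    have a2 : r' * c ≤ 0 := mul_nonpos_of_nonneg_of_nonpos hr' h
    constructor <;> linarith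

lemma star {p : ℝ × ℝ} (hp : p ∈ Q2) {θ r r' : ℝ} (hr' : 0 ≤ r') (hr : r' ≤ r)
    (h : p + (r * Real.cos θ, r * Real.sin θ) ∈ Q2) :
    p + (r' * Real.cos θ, r' * Real.sin θ) ∈ Q2 := by
  obtain ⟨⟨a1, a2⟩, ⟨a3, a4⟩⟩ := hp
  obtain ⟨⟨b1, b2⟩, ⟨b3, b4⟩⟩ := h
  simp only [Prod.fst_add, Prod.snd_add] at a1 a2 a3 a4 b1 b2 b3 b4
  have c1 := seg a1 a3 b1 b3 hr' hr
  have c2 := seg a2 a4 b2 b4 hr' hr
  exact ⟨⟨c1.1, c2.1⟩, ⟨c1.2, c2.2⟩⟩

lemma exr_spec {p : ℝ × ℝ} (hp : p ∈ Q2) {θ r : ℝ} (h0 : 0 < r) (h3 : r ≤ 3)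
    (hne : r ≠ exr p θ) : p + (r * Real.cos θ, r * Real.sin θ) ∈ Q2 ↔ r < exr p θ := by
  have hfin : volume (Prod.mk θ ⁻¹' ES p) ≠ ∞ := by
    have : Prod.mk θ ⁻¹' ES p ⊆ Ioo (0:ℝ) 3 := fun x hx => hx.1
    exact ne_top_of_le_ne_top (by simp) (measure_mono this)
  constructor
  · intro h
    refine lt_of_le_of_ne ?_ hne
    have h1 : Ioo (0:ℝ) r ⊆ Prod.mk θ ⁻¹' ES p := by
      intro r' hr'
      exact ⟨⟨hr'.1, by linarith [hr'.2]⟩, star hp hr'.1.le hr'.2.le h⟩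
    have h2 := measure_mono (μ := volume) h1
    rw [Real.volume_Ioo, sub_zero] at h2
    unfold exr
    rw [← ENNReal.ofReal_le_iff_le_toReal hfin]
    exact h2
  · intro h
    by_contra hc
    have h1 : Prod.mk θ ⁻¹' ES p ⊆ Ioo (0:ℝ) r := by
      intro r' hr'
      refine ⟨hr'.1.1, ?_⟩
      by_contra hc'
      rw [not_lt] at hc'
      exact hc (star hp h0.le hc' hr'.2)
    have h2 := measure_mono (μ := volume) h1
    rw [Real.volume_Ioo, sub_zero] at h2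
    have h4 : exr p θ ≤ r := by
      unfold exr
      exact ENNReal.toReal_le_of_le_ofReal h0.le h2
    linarith

lemma ct_min (σ ρ s : ℝ) : ct (min σ ρ) s = ct σ s * ct ρ s := by
  unfold ct
  by_cases h1 : Real.sqrt s < σ
  · by_cases h2 : Real.sqrt s < ρ
    · rw [if_pos h1, if_pos h2, if_pos (lt_min h1 h2), one_mul]
    · rw [if_pos h1, if_neg h2, if_neg (fun h => h2 (lt_of_lt_of_le h (min_le_right _ _))), mul_zero]
  · rw [if_neg h1, if_neg (fun h => h1 (lt_of_lt_of_le h (min_le_left _ _))), zero_mul]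

/-- the radial measure in every block -/
noncomputable def nun (n : ℕ) : Measure (Fin n → ℝ) := Measure.pi fun _ => nus

instance (n : ℕ) : IsFiniteMeasure (nun n) := by
  unfold nun
  infer_instance

lemma Psn_mp (n : ℕ) : MeasurePreserving
    (fun (w : (Fin n → ℝ) × (Fin n → ℝ)) (j : Fin n) => Psi (w.1 j, w.2 j))
    ((nun n).prod (mun n)) (volume.restrict (univ.pi fun _ : Fin n => Dk)) := by
  have h1 := (measurePreserving_arrowProdEquivProdArrow ℝ ℝ (Fin n) (fun _ => nus)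
    (fun _ => mu)).symm
  have : SigmaFinite ((volume : Measure (ℝ × ℝ)).restrict Dk) := inferInstance
  have h2 := measurePreserving_pi (fun _ : Fin n => nus.prod mu)
    (fun _ : Fin n => (volume : Measure (ℝ × ℝ)).restrict Dk) (fun _ => Psi_mp)
  have h3 := h2.comp h1
  rw [← Measure.restrict_pi_pi, ← volume_pi] at h3
  exact h3

variable {m₁ n N : ℕ}

/-- the inverse of the splitting of the coordinates -/
def Inv (e' : Fin m₁ ⊕ (Fin n ⊕ Fin n) ≃ Fin N) (z : (Fin m₁ → ℝ) × (Fin n → ℝ × ℝ)) :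
    Fin N → ℝ :=
  fun k => Sum.elim z.1 (Sum.elim (fun j => (z.2 j).1) (fun j => (z.2 j).2)) (e'.symm k)

lemma Inv_Phi (e' : Fin m₁ ⊕ (Fin n ⊕ Fin n) ≃ Fin N) (ξ : Fin N → ℝ) :
    Inv e' (Phi e' ξ) = ξ := by
  funext k
  obtain ⟨i, rfl⟩ := e'.surjective k
  unfold Inv Phi
  rw [Equiv.symm_apply_apply]
  rcases i with i | j | j <;> rfl

lemma Phi_Inv (e' : Fin m₁ ⊕ (Fin n ⊕ Fin n) ≃ Fin N) (z : (Fin m₁ → ℝ) × (Fin n → ℝ × ℝ)) :
    Phi e' (Inv e' z) = z := by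
  unfold Inv Phi
  simp

lemma Inv_meas (e' : Fin m₁ ⊕ (Fin n ⊕ Fin n) ≃ Fin N) : Measurable (Inv e') := by
  rw [measurable_pi_iff]
  intro k
  unfold Inv
  rcases e'.symm k with i | j | j
  · simp only [Sum.elim_inl]
    fun_prop
  · simp only [Sum.elim_inl, Sum.elim_inr]
    fun_prop
  · simp only [Sum.elim_inr]
    fun_prop

/-- the coordinates -/
noncomputable def Tc (e' : Fin m₁ ⊕ (Fin n ⊕ Fin n) ≃ Fin N) (p : Fin n → ℝ × ℝ)
    (w : ((Fin m₁ → ℝ) × (Fin n → ℝ)) × (Fin n → ℝ)) : Fin N → ℝ :=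
  Inv e' (w.1.1, fun j => p j + Psi (w.1.2 j, w.2 j))

lemma Q2_Dk {p η : ℝ × ℝ} (hp : p ∈ Q2) (h : p + η ∈ Q2) : η ∈ Dk := by
  obtain ⟨⟨a1, a2⟩, ⟨a3, a4⟩⟩ := hp
  obtain ⟨⟨b1, b2⟩, ⟨b3, b4⟩⟩ := h
  simp only [Prod.fst_add, Prod.snd_add] at a1 a2 a3 a4 b1 b2 b3 b4
  unfold Dk dot
  change η.1 * η.1 + η.2 * η.2 ≤ 9
  have c1 : |η.1| ≤ 2 := by rw [abs_le]; constructor <;> linarith
  have c2 : |η.2| ≤ 2 := by rw [abs_le]; constructor <;> linarith
  have d1 : η.1 * η.1 ≤ 4 := by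
    have := mul_le_mul c1 c1 (abs_nonneg _) (by norm_num)
    rw [← abs_mul, abs_mul_self] at this
    linarith
  have d2 : η.2 * η.2 ≤ 4 := by
    have := mul_le_mul c2 c2 (abs_nonneg _) (by norm_num)
    rw [← abs_mul, abs_mul_self] at this
    linarith
  linarith

/-- change of variables -/
theorem chv (e' : Fin m₁ ⊕ (Fin n ⊕ Fin n) ≃ Fin N) {p : Fin n → ℝ × ℝ} (hp : ∀ j, p j ∈ Q2)
    {h : (Fin N → ℝ) → ℂ} (hm : Measurable h)
    (h0 : ∀ ξ, (∃ j, (Phi e' ξ).2 j ∉ Q2) → h ξ = 0) :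
    ∫ ξ, h ξ = ∫ w, h (Tc e' p w) ∂((volume.prod (nun n)).prod (mun n)) := by
  have hI : Measurable fun z => h (Inv e' z) := hm.comp (Inv_meas e')
  have s1 : ∫ ξ, h ξ = ∫ z, h (Inv e' z) := by
    rw [← (Phi_mp e').map_eq, integral_map (Phi_mp e').measurable.aemeasurable
      hI.aestronglyMeasurable]
    simp_rw [Inv_Phi]
  have hT : MeasurePreserving (fun z : (Fin m₁ → ℝ) × (Fin n → ℝ × ℝ) => (z.1, p + z.2))
      (volume.prod volume) (volume.prod volume) :=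
    (MeasurePreserving.id (volume : Measure (Fin m₁ → ℝ))).prod
      (measurePreserving_add_left (volume : Measure (Fin n → ℝ × ℝ)) p)
  have s2 : ∫ z, h (Inv e' z) = ∫ z : (Fin m₁ → ℝ) × (Fin n → ℝ × ℝ), h (Inv e' (z.1, p + z.2)) := by
    rw [Measure.volume_eq_prod]
    conv_lhs => rw [← hT.map_eq]
    rw [integral_map hT.measurable.aemeasurable hI.aestronglyMeasurable]
  have hJ : Measurable fun z : (Fin m₁ → ℝ) × (Fin n → ℝ × ℝ) => h (Inv e' (z.1, p + z.2)) :=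
    hI.comp hT.measurable
  have s3 : ∫ z : (Fin m₁ → ℝ) × (Fin n → ℝ × ℝ), h (Inv e' (z.1, p + z.2)) =
      ∫ z, h (Inv e' (z.1, p + z.2)) ∂(volume.prod (volume.restrict (univ.pi fun _ => Dk))) := by
    have : (volume : Measure (Fin m₁ → ℝ)).prod
        ((volume : Measure (Fin n → ℝ × ℝ)).restrict (univ.pi fun _ => Dk)) =
        (volume : Measure ((Fin m₁ → ℝ) × (Fin n → ℝ × ℝ))).restrict
          (univ ×ˢ (univ.pi fun _ => Dk)) := by
      rw [Measure.volume_eq_prod, ← Measure.prod_restrict, Measure.restrict_univ]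
    rw [this, setIntegral_eq_integral_of_forall_compl_eq_zero]
    intro z hz
    apply h0
    rw [Phi_Inv]
    by_contra hc
    push Not at hc
    apply hz
    refine ⟨mem_univ _, fun j _ => ?_⟩
    exact Q2_Dk (hp j) (hc j)
  have hR : MeasurePreserving (fun w : (Fin m₁ → ℝ) × ((Fin n → ℝ) × (Fin n → ℝ)) =>
      (w.1, fun j => Psi (w.2.1 j, w.2.2 j))) (volume.prod ((nun n).prod (mun n)))
      (volume.prod (volume.restrict (univ.pi fun _ => Dk))) :=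
    (MeasurePreserving.id (volume : Measure (Fin m₁ → ℝ))).prod (Psn_mp n)
  have hA := measurePreserving_prodAssoc (volume : Measure (Fin m₁ → ℝ)) (nun n) (mun n)
  have hC := hR.comp hA
  rw [s1, s2, s3]
  conv_lhs => rw [← hC.map_eq]
  rw [integral_map hC.measurable.aemeasurable hJ.aestronglyMeasurable]
  rfl

end Pool.Agent.R245.PD
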