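import Mathlib
import Pool.Agent.R245.PD.D5
set_option autoImplicit false

/-! The extension operator in polar coordinates. -/

namespace Pool.Agent.R245.PD

open MeasureTheory Set Complex Filter
open scoped ENNReal NNReal
open Pool.Agent.R244.PQ (e e_norm e_add e_neg e_cont dot)
open Pool.Agent.R245.PB (mu I0)
open Pool.Agent.TH277.CB (Phi Phi_mp Q2 Q2_meas sum_blk mem_cube)
open Pool.Agent.TH277.HT (ch ch_norm ch_cont ch_add ch_sum EE EE_meas Adm E1 E1_eq tr tr_meas tr_bd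
  tr_zero)

variable {m₁ n N : ℕ} {S : Type} [MeasurableSpace S] {m : Measure S} [SFinite m]

lemma ch_eq (s : ℝ) : ch s = e s := by
  unfold ch e
  congr 1
  ring

/-- the data of a superposition -/
structure Dat (m : Measure S) (M : ℝ≥0) (φ : (Fin n → ℝ) × S → ℂ)
    (a : Fin m₁ → (Fin n → ℝ) × S → ℝ → ℂ) (σ : Fin n → (Fin n → ℝ) × S → ℝ) : Prop where
  φm : Measurable φ
  am : ∀ i, Measurable fun w : ((Fin n → ℝ) × S) × ℝ => a i w.1 w.2
  ab : ∀ i w u, ‖a i w u‖ ≤ 1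
  σm : ∀ j, Measurable (σ j)
  φb : ∀ θ, ∫⁻ s, ‖φ (θ, s)‖ₑ ∂m ≤ M

variable {M : ℝ≥0} {φ : (Fin n → ℝ) × S → ℂ} {a : Fin m₁ → (Fin n → ℝ) × S → ℝ → ℂ}
  {σ : Fin n → (Fin n → ℝ) × S → ℝ}

omit [SFinite m] in
lemma Dat.adm (h : Dat m M φ a σ) (i : Fin m₁) (p : (Fin n → ℝ) × S) : Adm (a i p) where
  meas := ((h.am i).comp (f := fun u : ℝ => (p, u)) (by fun_prop)).stronglyMeasurable
  bd := h.ab i p

lemma Dat.int (h : Dat m M φ a σ) : Integrable φ ((mun n).prod m) := by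
  refine ⟨h.φm.aestronglyMeasurable, ?_⟩
  unfold HasFiniteIntegral
  rw [lintegral_prod _ h.φm.enorm.aemeasurable]
  calc ∫⁻ θ, ∫⁻ s, ‖φ (θ, s)‖ₑ ∂m ∂(mun n) ≤ ∫⁻ _θ : Fin n → ℝ, (M:ℝ≥0∞) ∂(mun n) :=
        lintegral_mono fun θ => h.φb θ
    _ < ∞ := by
        rw [lintegral_const]
        exact ENNReal.mul_lt_top ENNReal.coe_lt_top (measure_lt_top _ _)

/-- the integrand -/
noncomputable def JJ (φ : (Fin n → ℝ) × S → ℂ) (a : Fin m₁ → (Fin n → ℝ) × S → ℝ → ℂ)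
    (σ : Fin n → (Fin n → ℝ) × S → ℝ) (y : Fin m₁ → ℝ) (x : Fin n → ℝ × ℝ) (t : ℝ)
    (w : ((Fin m₁ → ℝ) × (Fin n → ℝ)) × ((Fin n → ℝ) × S)) : ℂ :=
  φ w.2 * ((∏ i, (ch (w.1.1 i * y i + (w.1.1 i) ^ 2 * t) • tr (a i w.2) (w.1.1 i))) *
    ∏ j, ((ct (σ j w.2) (w.1.2 j) : ℂ) *
      e (Real.sqrt (w.1.2 j) * om (x j) (w.2.1 j) + w.1.2 j * t)))

omit [SFinite m] in
lemma JJ_meas (h : Dat m M φ a σ) (y : Fin m₁ → ℝ) (x : Fin n → ℝ × ℝ) (t : ℝ) :
    Measurable (JJ φ a σ y x t) := by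
  unfold JJ
  have he : Measurable e := e_cont.measurable
  have hch : Measurable ch := ch_cont.measurable
  apply (h.φm.comp measurable_snd).mul
  apply Measurable.mul
  · apply Finset.measurable_prod
    intro i _
    have a1 : Measurable fun w : ((Fin m₁ → ℝ) × (Fin n → ℝ)) × ((Fin n → ℝ) × S) =>
        ch (w.1.1 i * y i + (w.1.1 i) ^ 2 * t) := hch.comp (by fun_prop)
    have a2 : Measurable fun w : ((Fin m₁ → ℝ) × (Fin n → ℝ)) × ((Fin n → ℝ) × S) =>
        tr (a i w.2) (w.1.1 i) := by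
      have e1 : (fun w : ((Fin m₁ → ℝ) × (Fin n → ℝ)) × ((Fin n → ℝ) × S) =>
          tr (a i w.2) (w.1.1 i)) =
          {w : ((Fin m₁ → ℝ) × (Fin n → ℝ)) × ((Fin n → ℝ) × S) |
            w.1.1 i ∈ Icc (-1:ℝ) 1}.indicator (fun w => a i w.2 (w.1.1 i)) := by
        funext w
        unfold tr
        by_cases hw : w.1.1 i ∈ Icc (-1:ℝ) 1
        · rw [indicator_of_mem hw, indicator_of_mem (show w ∈ {w : ((Fin m₁ → ℝ) × (Fin n → ℝ)) ×
            ((Fin n → ℝ) × S) | w.1.1 i ∈ Icc (-1:ℝ) 1} from hw)]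
        · rw [indicator_of_notMem hw, indicator_of_notMem (show w ∉ {w : ((Fin m₁ → ℝ) ×
            (Fin n → ℝ)) × ((Fin n → ℝ) × S) | w.1.1 i ∈ Icc (-1:ℝ) 1} from hw)]
      rw [e1]
      apply Measurable.indicator
      · exact (h.am i).comp (f := fun w : ((Fin m₁ → ℝ) × (Fin n → ℝ)) × ((Fin n → ℝ) × S) =>
          (w.2, w.1.1 i)) (by fun_prop)
      · exact (by fun_prop : Measurable fun w : ((Fin m₁ → ℝ) × (Fin n → ℝ)) ×
          ((Fin n → ℝ) × S) => w.1.1 i) measurableSet_Icc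
    simp only [smul_eq_mul]
    exact a1.mul a2
  · apply Finset.measurable_prod
    intro j _
    have a1 : Measurable fun w : ((Fin m₁ → ℝ) × (Fin n → ℝ)) × ((Fin n → ℝ) × S) =>
        ct (σ j w.2) (w.1.2 j) :=
      ct_meas2.comp (f := fun w : ((Fin m₁ → ℝ) × (Fin n → ℝ)) × ((Fin n → ℝ) × S) =>
        (σ j w.2, w.1.2 j)) (((h.σm j).comp measurable_snd).prodMk (by fun_prop))
    have a2 : Measurable fun w : ((Fin m₁ → ℝ) × (Fin n → ℝ)) × ((Fin n → ℝ) × S) =>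
        om (x j) (w.2.1 j) :=
      om_cont.measurable.comp (f := fun w : ((Fin m₁ → ℝ) × (Fin n → ℝ)) × ((Fin n → ℝ) × S) =>
        (x j, w.2.1 j)) (by fun_prop)
    have a3 : Measurable fun w : ((Fin m₁ → ℝ) × (Fin n → ℝ)) × ((Fin n → ℝ) × S) =>
        Real.sqrt (w.1.2 j) * om (x j) (w.2.1 j) + w.1.2 j * t := by
      fun_prop
    exact (Complex.measurable_ofReal.comp a1).mul (he.comp a3)

lemma JJ_int (h : Dat m M φ a σ) (y : Fin m₁ → ℝ) (x : Fin n → ℝ × ℝ) (t : ℝ) :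
    Integrable (JJ φ a σ y x t) ((volume.prod (nun n)).prod ((mun n).prod m)) := by
  have h1 : Integrable (fun v : Fin m₁ → ℝ =>
      (Icc (-1 : Fin m₁ → ℝ) 1).indicator (fun _ => (1:ℂ)) v) := by
    rw [integrable_indicator_iff measurableSet_Icc]
    exact integrableOn_const (isCompact_Icc.measure_lt_top).ne (by simp)
  have h2 : Integrable (fun w : (Fin m₁ → ℝ) × (Fin n → ℝ) =>
      (Icc (-1 : Fin m₁ → ℝ) 1).indicator (fun _ => (1:ℂ)) w.1) (volume.prod (nun n)) :=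
    h1.comp_fst (nun n)
  have h3 := h2.mul_prod h.int
  refine h3.mono (JJ_meas h y x t).aestronglyMeasurable (ae_of_all _ fun w => ?_)
  unfold JJ
  rw [norm_mul, norm_mul, norm_mul, mul_comm]
  gcongr
  have b2 : ‖∏ j, ((ct (σ j w.2) (w.1.2 j) : ℂ) *
      e (Real.sqrt (w.1.2 j) * om (x j) (w.2.1 j) + w.1.2 j * t))‖ ≤ 1 := by
    rw [norm_prod]
    apply Finset.prod_le_one (fun _ _ => norm_nonneg _)
    intro j _
    rw [norm_mul, e_norm, mul_one]
    exact ct_norm _ _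
  have b1 : ‖∏ i, (ch (w.1.1 i * y i + (w.1.1 i) ^ 2 * t) • tr (a i w.2) (w.1.1 i))‖ ≤
      ‖(Icc (-1 : Fin m₁ → ℝ) 1).indicator (fun _ => (1:ℂ)) w.1.1‖ := by
    by_cases hv : w.1.1 ∈ Icc (-1 : Fin m₁ → ℝ) 1
    · rw [indicator_of_mem hv, norm_one, norm_prod]
      apply Finset.prod_le_one (fun _ _ => norm_nonneg _)
      intro i _
      rw [norm_smul, ch_norm, one_mul]
      exact tr_bd (h.adm i w.2) _
    · rw [indicator_of_notMem hv, norm_zero]
      have : ∃ i, w.1.1 i ∉ Icc (-1:ℝ) 1 := by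
        by_contra hc
        push Not at hc
        exact hv ⟨fun i => (hc i).1, fun i => (hc i).2⟩
      obtain ⟨i, hi⟩ := this
      rw [Finset.prod_eq_zero (Finset.mem_univ i), norm_zero]
      rw [tr_zero _ hi, smul_zero]
  calc _ ≤ ‖(Icc (-1 : Fin m₁ → ℝ) 1).indicator (fun _ => (1:ℂ)) w.1.1‖ * 1 := by gcongr
    _ = _ := mul_one _

lemma JJ_val (h : Dat m M φ a σ) (y : Fin m₁ → ℝ) (x : Fin n → ℝ × ℝ) (t : ℝ) :
    ∫ w, JJ φ a σ y x t w ∂((volume.prod (nun n)).prod ((mun n).prod m)) =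
      ∫ p, (φ p * ∏ i, E1 (a i p) (y i) t) * ∏ j, Ks (σ j p) (om (x j) (p.1 j)) t
        ∂((mun n).prod m) := by
  rw [integral_prod_symm _ (JJ_int h y x t)]
  apply integral_congr_ae
  refine ae_of_all _ fun p => ?_
  simp only
  unfold JJ
  simp only
  rw [integral_const_mul, mul_assoc]
  congr 1
  rw [integral_prod_mul (fun v : Fin m₁ → ℝ => ∏ i, (ch (v i * y i + (v i) ^ 2 * t) •
    tr (a i p) (v i))) (fun u : Fin n → ℝ => ∏ j, ((ct (σ j p) (u j) : ℂ) *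
      e (Real.sqrt (u j) * om (x j) (p.1 j) + u j * t)))]
  congr 1
  · rw [integral_fintype_prod_volume_eq_prod (fun (i : Fin m₁) (v : ℝ) =>
      (ch (v * y i + v ^ 2 * t) • tr (a i p) v))]
    exact Finset.prod_congr rfl fun i _ => (E1_eq _ _ _).symm
  · unfold nun
    rw [integral_fintype_prod_eq_prod (fun (j : Fin n) (u : ℝ) => ((ct (σ j p) u : ℂ) *
      e (Real.sqrt u * om (x j) (p.1 j) + u * t)))]
    exact Finset.prod_congr rfl fun j _ => (Ks_nus _ _ _).symm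

lemma good (p : ℝ × ℝ) : ∀ᵐ q ∂(nus.prod mu), q.1 ∈ Ioc (0:ℝ) 9 ∧ q.2 ∈ I0 ∧
    Real.sqrt q.1 ≠ exr p q.2 := by
  have n1 : ∀ᵐ s ∂nus, s ∈ Ioc (0:ℝ) 9 := by
    unfold nus
    apply Measure.ae_smul_measure
    exact ae_restrict_mem measurableSet_Ioc
  have c1 : ∀ᵐ q : ℝ × ℝ ∂(nus.prod mu), q.1 ∈ Ioc (0:ℝ) 9 :=
    Measure.quasiMeasurePreserving_fst.ae n1
  have c2 : ∀ᵐ q : ℝ × ℝ ∂(nus.prod mu), q.2 ∈ I0 := by
    have : ∀ᵐ s ∂mu, s ∈ I0 := by
      unfold mu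
      exact ae_restrict_mem Pool.Agent.R245.PB.I0_meas
    exact Measure.quasiMeasurePreserving_snd.ae this
  have c3 : ∀ᵐ q : ℝ × ℝ ∂(nus.prod mu), Real.sqrt q.1 ≠ exr p q.2 := by
    have hm : MeasurableSet {q : ℝ × ℝ | Real.sqrt q.1 = exr p q.2} :=
      measurableSet_eq_fun (by fun_prop) ((exr_meas p).comp measurable_snd)
    rw [ae_iff]
    simp only [ne_eq, not_not]
    rw [Measure.prod_apply_symm hm]
    have : ∀ θ, nus ((fun s : ℝ => (s, θ)) ⁻¹' {q : ℝ × ℝ | Real.sqrt q.1 = exr p q.2}) = 0 := by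
      intro θ
      have n2 : ∀ᵐ s ∂nus, s ≠ (exr p θ) ^ 2 := by
        unfold nus
        apply Measure.ae_smul_measure
        apply ae_restrict_of_ae
        rw [ae_iff]
        simp
      have n3 : ∀ᵐ s ∂nus, Real.sqrt s ≠ exr p θ := by
        filter_upwards [n1, n2] with s h1 h2 h3
        apply h2
        rw [← h3, Real.sq_sqrt h1.1.le]
      rw [ae_iff] at n3
      simp only [ne_eq, not_not] at n3
      exact n3
    rw [lintegral_congr this, lintegral_zero]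
  filter_upwards [c1, c2, c3] with q h1 h2 h3
  exact ⟨h1, h2, h3⟩

lemma qmp (j : Fin n) : Measure.QuasiMeasurePreserving
    (fun w : ((Fin m₁ → ℝ) × (Fin n → ℝ)) × (Fin n → ℝ) => (w.1.2 j, w.2 j))
    ((volume.prod (nun n)).prod (mun n)) (nus.prod mu) := by
  have h1 := (measurePreserving_arrowProdEquivProdArrow ℝ ℝ (Fin n) (fun _ => nus)
    (fun _ => mu)).symm
  have h2 := Measure.quasiMeasurePreserving_eval (fun _ : Fin n => nus.prod mu) j
  have h3 := measurePreserving_prodAssoc (volume : Measure (Fin m₁ → ℝ)) (nun n) (mun n)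
  have h4 : Measure.QuasiMeasurePreserving
    (Prod.snd : (Fin m₁ → ℝ) × ((Fin n → ℝ) × (Fin n → ℝ)) → _)
    (volume.prod ((nun n).prod (mun n))) ((nun n).prod (mun n)) :=
    Measure.quasiMeasurePreserving_snd
  exact (h2.comp h1.quasiMeasurePreserving).comp (h4.comp h3.quasiMeasurePreserving)

lemma phase (x p ψ : ℝ × ℝ) (t : ℝ) :
    e (dot x (p + ψ) + t * dot (p + ψ) (p + ψ)) =
      e (dot x p + t * dot p p) * e (dot (x + (2 * t) • p) ψ + t * dot ψ ψ) := by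
  rw [← e_add]
  congr 1
  unfold dot
  simp only [Prod.fst_add, Prod.snd_add, Prod.smul_fst, Prod.smul_snd, smul_eq_mul]
  ring

lemma chsplit (e' : Fin m₁ ⊕ (Fin n ⊕ Fin n) ≃ Fin N) (ξ X : Fin N → ℝ) (t : ℝ) :
    ch (∑ k, ξ k * X k + (∑ k, ξ k ^ 2) * t) =
      (∏ i, ch ((Phi e' ξ).1 i * (Phi e' X).1 i + ((Phi e' ξ).1 i) ^ 2 * t)) *
        ∏ j, e (dot ((Phi e' X).2 j) ((Phi e' ξ).2 j) +
          t * dot ((Phi e' ξ).2 j) ((Phi e' ξ).2 j)) := by
  simp_rw [← ch_eq]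
  rw [← ch_sum, ← ch_sum, ← ch_add]
  congr 1
  rw [sum_blk e', sum_blk e', add_mul, Finset.sum_mul Finset.univ
    (fun j => ξ (e' (Sum.inr (Sum.inl j))) ^ 2 + ξ (e' (Sum.inr (Sum.inr j))) ^ 2) t,
    Finset.sum_mul Finset.univ (fun i => ξ (e' (Sum.inl i)) ^ 2) t]
  rw [Finset.sum_add_distrib (s := (Finset.univ : Finset (Fin m₁)))]
  rw [Finset.sum_add_distrib (s := (Finset.univ : Finset (Fin n)))
    (f := fun j => dot ((Phi e' X).2 j) ((Phi e' ξ).2 j))]
  have h1 : ∀ j, dot ((Phi e' X).2 j) ((Phi e' ξ).2 j) =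
      ξ (e' (Sum.inr (Sum.inl j))) * X (e' (Sum.inr (Sum.inl j))) +
        ξ (e' (Sum.inr (Sum.inr j))) * X (e' (Sum.inr (Sum.inr j))) := by
    intro j
    unfold dot Phi
    simp only
    ring
  have h2 : ∀ j, t * dot ((Phi e' ξ).2 j) ((Phi e' ξ).2 j) =
      (ξ (e' (Sum.inr (Sum.inl j))) ^ 2 + ξ (e' (Sum.inr (Sum.inr j))) ^ 2) * t := by
    intro j
    unfold dot Phi
    simp only
    ring
  simp_rw [h1, h2]
  unfold Phi
  simp only
  ring

/-- the radii cut at the boundary of the square -/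
noncomputable def sc (p : Fin n → ℝ × ℝ) (σ : Fin n → (Fin n → ℝ) × S → ℝ) (j : Fin n)
    (w : (Fin n → ℝ) × S) : ℝ := min (σ j w) (exr (p j) (w.1 j))

omit [SFinite m] in
lemma Dat.sc (h : Dat m M φ a σ) (p : Fin n → ℝ × ℝ) : Dat m M φ a (sc p σ) where
  φm := h.φm
  am := h.am
  ab := h.ab
  σm := fun j => by
    unfold Pool.Agent.R245.PD.sc
    exact (h.σm j).min ((exr_meas (p j)).comp ((measurable_pi_apply j).comp measurable_fst))
  φb := h.φb

/-- The extension operator in polar coordinates. -/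
theorem repr (e' : Fin m₁ ⊕ (Fin n ⊕ Fin n) ≃ Fin N) {p : Fin n → ℝ × ℝ} (hp : ∀ j, p j ∈ Q2)
    (h : Dat m M φ a σ) {f : (Fin N → ℝ) → ℂ} (hf : Measurable f)
    (hF : ∀ ξ ∈ Icc (-1 : Fin N → ℝ) 1, ∀ r θ : Fin n → ℝ, (∀ j, 0 < r j) →
      (∀ j, θ j ∈ Ioc (-Real.pi) Real.pi) →
      (∀ j, (Phi e' ξ).2 j = p j + (r j * Real.cos (θ j), r j * Real.sin (θ j))) →
      f ξ = ∫ s, φ (θ, s) * ((∏ i, a i (θ, s) ((Phi e' ξ).1 i)) *
        ∏ j, (if r j < σ j (θ, s) then (1:ℂ) else 0)) ∂m) (X : Fin N → ℝ) (t : ℝ) :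
    ‖EE f (X, t)‖ₑ = ‖∫ q, (φ q * ∏ i, E1 (a i q) ((Phi e' X).1 i) t) *
      ∏ j, Ks (sc p σ j q) (om ((Phi e' X).2 j + (2 * t) • p j) (q.1 j)) t
        ∂((mun n).prod m)‖ₑ := by
  obtain ⟨c, hc⟩ : ∃ c : ℂ, c = ∏ j, e (dot ((Phi e' X).2 j) (p j) + t * dot (p j) (p j)) :=
    ⟨_, rfl⟩
  have hc1 : ‖c‖ₑ = 1 := by
    rw [hc, enorm_prod]
    apply Finset.prod_eq_one
    intro j _
    rw [← ofReal_norm, e_norm, ENNReal.ofReal_one]
  rw [← JJ_val (h.sc p) ((Phi e' X).1) (fun j => (Phi e' X).2 j + (2 * t) • p j) t]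
  suffices hs : EE f (X, t) = c * ∫ w, JJ φ a (sc p σ) ((Phi e' X).1)
      (fun j => (Phi e' X).2 j + (2 * t) • p j) t w
      ∂((volume.prod (nun n)).prod ((mun n).prod m)) by
    rw [hs, enorm_mul, hc1, one_mul]
  have s1 : EE f (X, t) = ∫ ξ, (Icc (-1 : Fin N → ℝ) 1).indicator
      (fun ξ => ch (∑ k, ξ k * X k + (∑ k, ξ k ^ 2) * t) * f ξ) ξ := by
    unfold EE
    rw [integral_indicator measurableSet_Icc]
  have hm : Measurable ((Icc (-1 : Fin N → ℝ) 1).indicator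
      (fun ξ => ch (∑ k, ξ k * X k + (∑ k, ξ k ^ 2) * t) * f ξ)) := by
    apply Measurable.indicator _ measurableSet_Icc
    exact (ch_cont.measurable.comp (by fun_prop)).mul hf
  rw [s1, chv e' hp hm (by
    rintro ξ ⟨j, hj⟩
    apply indicator_of_notMem
    intro hc'
    exact hj (((mem_cube e' ξ).1 hc').2 j))]
  have s2 : ∀ᵐ w : ((Fin m₁ → ℝ) × (Fin n → ℝ)) × (Fin n → ℝ)
      ∂((volume.prod (nun n)).prod (mun n)), (Icc (-1 : Fin N → ℝ) 1).indicator
      (fun ξ => ch (∑ k, ξ k * X k + (∑ k, ξ k ^ 2) * t) * f ξ) (Tc e' p w) =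
      c * ∫ s, JJ φ a (sc p σ) ((Phi e' X).1) (fun j => (Phi e' X).2 j + (2 * t) • p j) t
        (w.1, (w.2, s)) ∂m := by
    have hall : ∀ᵐ w : ((Fin m₁ → ℝ) × (Fin n → ℝ)) × (Fin n → ℝ)
        ∂((volume.prod (nun n)).prod (mun n)), ∀ j, w.1.2 j ∈ Ioc (0:ℝ) 9 ∧ w.2 j ∈ I0 ∧
          Real.sqrt (w.1.2 j) ≠ exr (p j) (w.2 j) := by
      rw [ae_all_iff]
      intro j
      exact (qmp j).ae (good (p j))
    filter_upwards [hall] with w hw
    have hPhi : Phi e' (Tc e' p w) = (w.1.1, fun j => p j + Psi (w.1.2 j, w.2 j)) := by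
      unfold Tc
      rw [Phi_Inv]
    have hQ : ∀ j, p j + Psi (w.1.2 j, w.2 j) ∈ Q2 ↔
        Real.sqrt (w.1.2 j) < exr (p j) (w.2 j) := by
      intro j
      exact exr_spec (hp j) (Real.sqrt_pos.2 (hw j).1.1) (by
        rw [Real.sqrt_le_left (by norm_num)]
        linarith [(hw j).1.2]) (hw j).2.2
    by_cases hcube : Tc e' p w ∈ Icc (-1 : Fin N → ℝ) 1
    · rw [indicator_of_mem hcube]
      have hmem := (mem_cube e' _).1 hcube
      rw [hPhi] at hmem
      have hv : ∀ i, w.1.1 i ∈ Icc (-1:ℝ) 1 := fun i => ⟨hmem.1.1 i, hmem.1.2 i⟩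
      have hF1 := hF _ hcube (fun j => Real.sqrt (w.1.2 j)) w.2
        (fun j => Real.sqrt_pos.2 (hw j).1.1) (fun j => Ioo_subset_Ioc_self (hw j).2.1) (by
          intro j
          rw [hPhi]
          rfl)
      rw [hF1, chsplit e', hPhi]
      simp only
      rw [← integral_const_mul, ← integral_const_mul]
      congr 1
      funext s
      unfold JJ
      simp only
      have g1 : ∀ i, tr (a i (w.2, s)) (w.1.1 i) = a i (w.2, s) (w.1.1 i) := fun i =>
        indicator_of_mem (hv i) _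
      have g2 : ∀ j, (ct (sc p σ j (w.2, s)) (w.1.2 j) : ℂ) =
          if Real.sqrt (w.1.2 j) < σ j (w.2, s) then (1:ℂ) else 0 := by
        intro j
        unfold sc
        rw [ct_min]
        have : ct (exr (p j) (w.2 j)) (w.1.2 j) = 1 := by
          unfold ct
          rw [if_pos ((hQ j).1 (hmem.2 j))]
        simp only
        rw [this, mul_one]
        unfold ct
        split_ifs <;> simp
      have g3 : ∀ j, e (dot ((Phi e' X).2 j) (p j + Psi (w.1.2 j, w.2 j)) +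
          t * dot (p j + Psi (w.1.2 j, w.2 j)) (p j + Psi (w.1.2 j, w.2 j))) =
          e (dot ((Phi e' X).2 j) (p j) + t * dot (p j) (p j)) *
          e (Real.sqrt (w.1.2 j) * om ((Phi e' X).2 j + (2 * t) • p j) (w.2 j) +
            w.1.2 j * t) := by
        intro j
        rw [phase, dot_Psi_om, dot_Psi (hw j).1.1.le]
        simp only
        rw [mul_comm t (w.1.2 j)]
      simp_rw [g1, g2, g3, smul_eq_mul]
      rw [Finset.prod_mul_distrib, Finset.prod_mul_distrib, Finset.prod_mul_distrib, hc]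
      ring
    · rw [indicator_of_notMem hcube]
      have hz : ∀ s, JJ φ a (sc p σ) ((Phi e' X).1) (fun j => (Phi e' X).2 j + (2 * t) • p j) t
          (w.1, (w.2, s)) = 0 := by
        intro s
        unfold JJ
        simp only
        have hn : ¬ (w.1.1 ∈ Icc (-1 : Fin m₁ → ℝ) 1 ∧
            ∀ j, p j + Psi (w.1.2 j, w.2 j) ∈ Q2) := by
          intro hh
          apply hcube
          rw [mem_cube e', hPhi]
          exact hh
        by_cases hv : w.1.1 ∈ Icc (-1 : Fin m₁ → ℝ) 1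
        · have : ∃ j, p j + Psi (w.1.2 j, w.2 j) ∉ Q2 := by
            by_contra hcc
            push Not at hcc
            exact hn ⟨hv, hcc⟩
          obtain ⟨j, hj⟩ := this
          rw [Finset.prod_eq_zero (f := fun j => ((ct (sc p σ j (w.2, s)) (w.1.2 j) : ℂ) *
            e (Real.sqrt (w.1.2 j) * om ((Phi e' X).2 j + (2 * t) • p j) (w.2 j) +
              w.1.2 j * t))) (Finset.mem_univ j), mul_zero, mul_zero]
          unfold sc
          rw [ct_min]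
          have : ct (exr (p j) (w.2 j)) (w.1.2 j) = 0 := by
            unfold ct
            rw [if_neg (fun hh => hj ((hQ j).2 hh))]
          simp only
          rw [this, mul_zero]
          simp
        · have : ∃ i, w.1.1 i ∉ Icc (-1:ℝ) 1 := by
            by_contra hcc
            push Not at hcc
            exact hv ⟨fun i => (hcc i).1, fun i => (hcc i).2⟩
          obtain ⟨i, hi⟩ := this
          rw [Finset.prod_eq_zero (f := fun i => (ch (w.1.1 i * (Phi e' X).1 i +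
            (w.1.1 i) ^ 2 * t) • tr (a i (w.2, s)) (w.1.1 i))) (Finset.mem_univ i), zero_mul,
            mul_zero]
          rw [tr_zero _ hi, smul_zero]
      simp_rw [hz]
      simp
  have i1 : SFinite ((volume : Measure (Fin m₁ → ℝ)).prod (nun n)) := inferInstance
  have i2 : SFinite (((volume : Measure (Fin m₁ → ℝ)).prod (nun n)).prod (mun n)) := inferInstance
  rw [integral_congr_ae s2, integral_const_mul]
  congr 1
  have hA := measurePreserving_prodAssoc ((volume : Measure (Fin m₁ → ℝ)).prod (nun n)) (mun n) m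
  have hJi := JJ_int (h.sc p) ((Phi e' X).1) (fun j => (Phi e' X).2 j + (2 * t) • p j) t
  rw [← hA.integral_comp' (g := JJ φ a (sc p σ) ((Phi e' X).1)
    (fun j => (Phi e' X).2 j + (2 * t) • p j) t)]
  have hJ2 : Integrable (fun w : (((Fin m₁ → ℝ) × (Fin n → ℝ)) × (Fin n → ℝ)) × S =>
      JJ φ a (sc p σ) ((Phi e' X).1) (fun j => (Phi e' X).2 j + (2 * t) • p j) t
        (MeasurableEquiv.prodAssoc w)) (((volume.prod (nun n)).prod (mun n)).prod m) :=
    (hA.integrable_comp_emb MeasurableEquiv.prodAssoc.measurableEmbedding).2 hJi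
  rw [integral_prod _ hJ2]
  rfl

end Pool.Agent.R245.PD
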