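import Mathlib
import Pool.Agent.R245.PD.D6
set_option autoImplicit false

/-! Integration in space and time. -/

namespace Pool.Agent.R245.PD

open MeasureTheory Set Complex Filter
open scoped ENNReal NNReal
open Pool.Agent.R244.PQ (e e_norm e_add e_neg e_cont dot dec_lint)
open Pool.Agent.R245.PB (mu I0)
open Pool.Agent.TH277.CB (Phi Phi_mp Q2 Q2_meas)
open Pool.Agent.TH277.HT (ch ch_norm ch_cont EE EE_meas Adm E1 E1_eq E1_meas E1t_meas lint_pi mix)

attribute [local irreducible] E1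

variable {m₁ n N : ℕ} {S : Type} [MeasurableSpace S] {m : Measure S}
variable {M : ℝ≥0} {φ : (Fin n → ℝ) × S → ℂ} {a : Fin m₁ → (Fin n → ℝ) × S → ℝ → ℂ}
  {σ : Fin n → (Fin n → ℝ) × S → ℝ}

lemma Dat.E1m (h : Dat m M φ a σ) (i : Fin m₁) :
    Measurable fun w : ((Fin n → ℝ) × S) × (ℝ × ℝ) => E1 (a i w.1) w.2.1 w.2.2 := by
  have hch : Measurable ch := ch_cont.measurable
  have h1 : Measurable (fun w : (((Fin n → ℝ) × S) × (ℝ × ℝ)) × ℝ =>
      ch (w.2 * w.1.2.1 + w.2 ^ 2 * w.1.2.2) • a i w.1.1 w.2) := by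
    have a1 : Measurable fun w : (((Fin n → ℝ) × S) × (ℝ × ℝ)) × ℝ =>
        ch (w.2 * w.1.2.1 + w.2 ^ 2 * w.1.2.2) := hch.comp (by fun_prop)
    have a2 := (h.am i).comp (f := fun w : (((Fin n → ℝ) × S) × (ℝ × ℝ)) × ℝ => (w.1.1, w.2))
      (by fun_prop)
    simp only [smul_eq_mul]
    exact a1.mul a2
  have h2 := (StronglyMeasurable.integral_prod_right' (ν := volume.restrict (Icc (-1:ℝ) 1))
    h1.stronglyMeasurable).measurable
  have e1 : (fun w : ((Fin n → ℝ) × S) × (ℝ × ℝ) => E1 (a i w.1) w.2.1 w.2.2) =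
      fun w : ((Fin n → ℝ) × S) × (ℝ × ℝ) => ∫ u in Icc (-1:ℝ) 1,
        ch (u * w.2.1 + u ^ 2 * w.2.2) • a i w.1 u := by
    funext w
    rw [E1_eq, ← integral_indicator measurableSet_Icc]
    congr 1
    funext u
    unfold Pool.Agent.TH277.HT.tr
    by_cases hu : u ∈ Icc (-1:ℝ) 1
    · rw [indicator_of_mem hu, indicator_of_mem hu]
    · rw [indicator_of_notMem hu, indicator_of_notMem hu, smul_zero]
  rw [e1]
  exact h2

lemma Dat.E1b (h : Dat m M φ a σ) (i : Fin m₁) (w : (Fin n → ℝ) × S) (y t : ℝ) :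
    ‖E1 (a i w) y t‖ₑ ≤ 2 := by
  have e1 : E1 (a i w) y t = ∫ u in Icc (-1:ℝ) 1, ch (u * y + u ^ 2 * t) • a i w u := by
    rw [E1_eq, ← integral_indicator measurableSet_Icc]
    congr 1
    funext u
    unfold Pool.Agent.TH277.HT.tr
    by_cases hu : u ∈ Icc (-1:ℝ) 1
    · rw [indicator_of_mem hu, indicator_of_mem hu]
    · rw [indicator_of_notMem hu, indicator_of_notMem hu, smul_zero]
  rw [e1, ← ofReal_norm]
  have h1 := norm_setIntegral_le_of_norm_le_const (μ := volume) (s := Icc (-1:ℝ) 1)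
    (f := fun u => ch (u * y + u ^ 2 * t) • a i w u) (C := 1) (by simp) (fun u _ => by
      rw [norm_smul, ch_norm, one_mul]
      exact h.ab i w u)
  have h2 : ‖∫ u in Icc (-1:ℝ) 1, ch (u * y + u ^ 2 * t) • a i w u‖ ≤ 2 := by
    refine h1.trans ?_
    simp
    norm_num
  calc ENNReal.ofReal _ ≤ ENNReal.ofReal 2 := ENNReal.ofReal_le_ofReal h2
    _ = 2 := by simp

/-- the amplitude -/
noncomputable def am (φ : (Fin n → ℝ) × S → ℂ) (a : Fin m₁ → (Fin n → ℝ) × S → ℝ → ℂ)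
    (y : Fin m₁ → ℝ) (t : ℝ) (w : (Fin n → ℝ) × S) : ℂ := φ w * ∏ i, E1 (a i w) (y i) t

lemma am_jm (h : Dat m M φ a σ) : Measurable fun w : ((Fin n → ℝ) × S) × ((Fin m₁ → ℝ) × ℝ) =>
    am φ a w.2.1 w.2.2 w.1 := by
  unfold am
  apply (h.φm.comp measurable_fst).mul
  apply Finset.measurable_prod
  intro i _
  exact (h.E1m i).comp (f := fun w : ((Fin n → ℝ) × S) × ((Fin m₁ → ℝ) × ℝ) =>
    (w.1, (w.2.1 i, w.2.2))) (by fun_prop)

lemma am_bd (h : Dat m M φ a σ) (y : Fin m₁ → ℝ) (t : ℝ) (θ : Fin n → ℝ) :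
    ∫⁻ s, ‖am φ a y t (θ, s)‖ₑ ∂m ≤ ((2 ^ m₁ * M : ℝ≥0) : ℝ≥0∞) := by
  calc ∫⁻ s, ‖am φ a y t (θ, s)‖ₑ ∂m ≤ ∫⁻ s, 2 ^ m₁ * ‖φ (θ, s)‖ₑ ∂m := by
        apply lintegral_mono
        intro s
        unfold am
        simp only
        rw [enorm_mul, enorm_prod, mul_comm]
        gcongr
        calc ∏ i, ‖E1 (a i (θ, s)) (y i) t‖ₑ ≤ ∏ _i : Fin m₁, (2:ℝ≥0∞) :=
              Finset.prod_le_prod' fun i _ => h.E1b i _ _ _
          _ = _ := by simp
    _ = 2 ^ m₁ * ∫⁻ s, ‖φ (θ, s)‖ₑ ∂m := lintegral_const_mul' _ _ (by finiteness)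
    _ ≤ 2 ^ m₁ * M := by gcongr; exact h.φb θ
    _ = _ := by push_cast; rfl

/-- The estimate. -/
theorem mainJ (m₁ n N : ℕ) (hn : 1 ≤ n) (hN : N = m₁ + 2 * n) (q : ℝ)
    (hq : 2 * ((N : ℝ) + 1) / N < q) :
    ∃ C : ℝ≥0, ∀ (e' : Fin m₁ ⊕ (Fin n ⊕ Fin n) ≃ Fin N) (S : Type) [MeasurableSpace S]
      (m : Measure S) [SFinite m] (M : ℝ≥0) (φ : (Fin n → ℝ) × S → ℂ)
      (a : Fin m₁ → (Fin n → ℝ) × S → ℝ → ℂ) (σ : Fin n → (Fin n → ℝ) × S → ℝ)
      (p : Fin n → ℝ × ℝ) (f : (Fin N → ℝ) → ℂ), Dat m M φ a σ → (∀ j, p j ∈ Q2) →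
      Measurable f →
      (∀ ξ ∈ Icc (-1 : Fin N → ℝ) 1, ∀ r θ : Fin n → ℝ, (∀ j, 0 < r j) →
        (∀ j, θ j ∈ Ioc (-Real.pi) Real.pi) →
        (∀ j, (Phi e' ξ).2 j = p j + (r j * Real.cos (θ j), r j * Real.sin (θ j))) →
        f ξ = ∫ s, φ (θ, s) * ((∏ i, a i (θ, s) ((Phi e' ξ).1 i)) *
          ∏ j, (if r j < σ j (θ, s) then (1:ℂ) else 0)) ∂m) →
      ∫⁻ y : (Fin N → ℝ) × ℝ, ‖EE f y‖ₑ ^ q ≤
        C * ∫⁻ θ, (∫⁻ s, ‖φ (θ, s)‖ₑ ∂m) ^ q ∂(mun n) := by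
  have hN2 : 2 ≤ N := by omega
  have hN0' : 0 < N := by omega
  have hN0 : (0 : ℝ) < N := by exact_mod_cast hN0'
  have hN2' : (2 : ℝ) ≤ N := by exact_mod_cast hN2
  have hq2 : 2 / (N : ℝ) < q - 2 := by
    rw [div_lt_iff₀ hN0] at hq ⊢
    linarith
  have h2N : 2 / (N : ℝ) < 2 := by
    rw [div_lt_iff₀ hN0]
    linarith
  have h2N0 : 0 < 2 / (N : ℝ) := by positivity
  obtain ⟨κ', κ, k1, k2, k3, k4⟩ : ∃ κ' κ : ℝ, 2 / (N : ℝ) < κ' ∧ κ' < κ ∧ κ < q - 2 ∧ κ < 2 := by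
    have h5 : 2 / (N : ℝ) < min (q - 2) 2 := lt_min hq2 h2N
    obtain ⟨u, hu1, hu2⟩ := exists_between h5
    obtain ⟨v, hv1, hv2⟩ := exists_between hu2
    exact ⟨u, v, hu1, hv1, hv2.trans_le (min_le_left _ _), hv2.trans_le (min_le_right _ _)⟩
  have hq0 : 0 < q := by linarith
  have hκ0 : 0 < κ' := by linarith
  obtain ⟨C0, hC0, hfix⟩ := FTP (κ := κ) (κ' := κ') (q := q) hκ0.le k2 k3 k4 n
  obtain ⟨C, hC⟩ := mix N hN2 q hq
  have hκn : 1 < κ' * N / 2 := by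
    rw [div_lt_iff₀ hN0] at k1
    linarith
  have hd := dec_lint hκn
  obtain ⟨D, hD⟩ : ∃ D, D = ∫⁻ t : ℝ, ENNReal.ofReal ((1 + |t|) ^ (-(κ' * N / 2))) := ⟨_, rfl⟩
  rw [← hD] at hd
  obtain ⟨K, hK⟩ : ∃ K : ℝ≥0∞, K =
    ((C : ℝ≥0∞) ^ (1 / (N : ℝ))) ^ m₁ * (D ^ (2 / (N : ℝ))) ^ n := ⟨_, rfl⟩
  have hKt : K ≠ ∞ := by
    rw [hK]
    apply ENNReal.mul_ne_top
    · exact ENNReal.pow_ne_top (ENNReal.rpow_ne_top_of_nonneg (by positivity) ENNReal.coe_ne_top)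
    · exact ENNReal.pow_ne_top (ENNReal.rpow_ne_top_of_nonneg (by positivity) hd.ne)
  refine ⟨(ENNReal.ofReal C0 * K).toNNReal, ?_⟩
  intro e' S _ m _ M φ a σ p f h hp hf hF
  rw [ENNReal.coe_toNNReal (ENNReal.mul_ne_top ENNReal.ofReal_ne_top hKt)]
  have hEm : Measurable fun y : (Fin N → ℝ) × ℝ => ‖EE f y‖ₑ ^ q :=
    (EE_meas hf.stronglyMeasurable).enorm.pow_const q
  have hsd := h.sc p
  -- the estimate at a fixed time
  obtain ⟨Z, hZ⟩ : ∃ Z : ℝ → (Fin m₁ → ℝ) → (Fin n → ℝ) → ℝ≥0∞, Z = fun t y θ =>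
    (∫⁻ s, ‖am φ a y t (θ, s)‖ₑ ∂m) ^ q := ⟨_, rfl⟩
  have hamj := am_jm h
  have hZm : Measurable fun w : (ℝ × (Fin m₁ → ℝ)) × (Fin n → ℝ) => Z w.1.1 w.1.2 w.2 := by
    rw [hZ]
    have a1 : Measurable fun v : ((ℝ × (Fin m₁ → ℝ)) × (Fin n → ℝ)) × S =>
        ‖am φ a v.1.1.2 v.1.1.1 (v.1.2, v.2)‖ₑ :=
      (hamj.comp (f := fun v : ((ℝ × (Fin m₁ → ℝ)) × (Fin n → ℝ)) × S =>
        ((v.1.2, v.2), (v.1.1.2, v.1.1.1))) (by fun_prop)).enorm
    exact (a1.lintegral_prod_right' (ν := m)).pow_const q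
  have hfx : ∀ t : ℝ, ∫⁻ X : Fin N → ℝ, ‖EE f (X, t)‖ₑ ^ q ≤
      ENNReal.ofReal (C0 * (1 + |t|) ^ (-(n * κ'))) *
        ∫⁻ y : Fin m₁ → ℝ, ∫⁻ θ, Z t y θ ∂(mun n) := by
    intro t
    obtain ⟨G, hG⟩ : ∃ G : (Fin m₁ → ℝ) × (Fin n → ℝ × ℝ) → ℝ≥0∞, G = fun z =>
      ‖∫ w, am φ a z.1 t w * ∏ j, Ks (sc p σ j w) (om (z.2 j) (w.1 j)) t
        ∂((mun n).prod m)‖ₑ ^ q := ⟨_, rfl⟩
    have hGm : Measurable G := by
      rw [hG]
      have a1 : Measurable fun v : ((Fin m₁ → ℝ) × (Fin n → ℝ × ℝ)) × ((Fin n → ℝ) × S) =>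
          am φ a v.1.1 t v.2 * ∏ j, Ks (sc p σ j v.2) (om (v.1.2 j) (v.2.1 j)) t := by
        apply Measurable.mul
        · exact hamj.comp (f := fun v : ((Fin m₁ → ℝ) × (Fin n → ℝ × ℝ)) × ((Fin n → ℝ) × S) =>
            (v.2, (v.1.1, t))) (by fun_prop)
        · apply Finset.measurable_prod
          intro j _
          have b1 : Measurable fun w : ℝ × ℝ => Ks w.1 w.2 t := by
            unfold Ks
            have he : Measurable e := e_cont.measurable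
            have c1 : Measurable (fun w : (ℝ × ℝ) × ℝ => (ct w.1.1 w.2 : ℂ) *
                ((1 / 2 : ℂ) * e (Real.sqrt w.2 * w.1.2 + w.2 * t))) := by
              have d1 : Measurable fun w : (ℝ × ℝ) × ℝ => (ct w.1.1 w.2 : ℂ) :=
                Complex.measurable_ofReal.comp (ct_meas2.comp
                  (f := fun w : (ℝ × ℝ) × ℝ => (w.1.1, w.2)) (by fun_prop))
              have d2 : Measurable fun w : (ℝ × ℝ) × ℝ => Real.sqrt w.2 * w.1.2 + w.2 * t := by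
                fun_prop
              exact d1.mul ((he.comp d2).const_mul _)
            exact (StronglyMeasurable.integral_prod_right' (ν := volume.restrict (Ioc (0:ℝ) 9))
              c1.stronglyMeasurable).measurable
          have b2 : Measurable fun v : ((Fin m₁ → ℝ) × (Fin n → ℝ × ℝ)) × ((Fin n → ℝ) × S) =>
              om (v.1.2 j) (v.2.1 j) :=
            om_cont.measurable.comp (f := fun v : ((Fin m₁ → ℝ) × (Fin n → ℝ × ℝ)) ×
              ((Fin n → ℝ) × S) => (v.1.2 j, v.2.1 j)) (by fun_prop)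
          exact b1.comp (f := fun v : ((Fin m₁ → ℝ) × (Fin n → ℝ × ℝ)) × ((Fin n → ℝ) × S) =>
            (sc p σ j v.2, om (v.1.2 j) (v.2.1 j))) (((hsd.σm j).comp measurable_snd).prodMk b2)
      exact (StronglyMeasurable.integral_prod_right' (ν := (mun n).prod m)
        a1.stronglyMeasurable).measurable.enorm.pow_const q
    have hT : MeasurePreserving (fun z : (Fin m₁ → ℝ) × (Fin n → ℝ × ℝ) =>
        (z.1, z.2 + (fun j => (2 * t) • p j))) (volume.prod volume) (volume.prod volume) :=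
      (MeasurePreserving.id (volume : Measure (Fin m₁ → ℝ))).prod
        (measurePreserving_add_right (volume : Measure (Fin n → ℝ × ℝ)) _)
    calc ∫⁻ X : Fin N → ℝ, ‖EE f (X, t)‖ₑ ^ q
        = ∫⁻ X : Fin N → ℝ, G ((fun z : (Fin m₁ → ℝ) × (Fin n → ℝ × ℝ) =>
            (z.1, z.2 + (fun j => (2 * t) • p j))) (Phi e' X)) := by
          apply lintegral_congr
          intro X
          rw [repr e' hp h hf hF X t, hG]
          rfl
      _ = ∫⁻ z, G ((fun z : (Fin m₁ → ℝ) × (Fin n → ℝ × ℝ) =>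
            (z.1, z.2 + (fun j => (2 * t) • p j))) z) :=
          (Phi_mp e').lintegral_comp (hGm.comp hT.measurable)
      _ = ∫⁻ z, G z ∂(volume.prod volume) := by
          rw [Measure.volume_eq_prod]
          exact hT.lintegral_comp hGm
      _ = ∫⁻ y : Fin m₁ → ℝ, ∫⁻ x : Fin n → ℝ × ℝ, G (y, x) :=
          lintegral_prod _ hGm.aemeasurable
      _ ≤ ∫⁻ y : Fin m₁ → ℝ, ENNReal.ofReal (C0 * (1 + |t|) ^ (-(n * κ'))) *
            ∫⁻ θ, Z t y θ ∂(mun n) := by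
          apply lintegral_mono
          intro y
          have := hfix S m (am φ a y t) (sc p σ) (2 ^ m₁ * M)
            (hamj.comp (f := fun w : (Fin n → ℝ) × S => (w, (y, t))) (by fun_prop))
            hsd.σm (fun θ => am_bd h y t θ) t
          simp only
          rw [hG, hZ]
          exact this
      _ = _ := lintegral_const_mul' _ _ ENNReal.ofReal_ne_top
  -- the weighted estimate for the amplitude
  have hamp : ∀ θ : Fin n → ℝ, ∫⁻ w : ℝ × (Fin m₁ → ℝ),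
      ENNReal.ofReal ((1 + |w.1|) ^ (-(n * κ'))) * Z w.1 w.2 θ ≤
        K * (∫⁻ s, ‖φ (θ, s)‖ₑ ∂m) ^ q := by
    intro θ
    obtain ⟨g, hg⟩ : ∃ g : ℝ × (Fin m₁ → ℝ) → S → ℝ≥0∞, g = fun w s =>
      ENNReal.ofReal ((1 + |w.1|) ^ (-(n * κ'))) ^ (1 / q) * ‖am φ a w.2 w.1 (θ, s)‖ₑ := ⟨_, rfl⟩
    have hgm : Measurable (Function.uncurry g) := by
      rw [hg]
      have a1 : Measurable fun v : (ℝ × (Fin m₁ → ℝ)) × S =>
          ENNReal.ofReal ((1 + |v.1.1|) ^ (-(n * κ'))) ^ (1 / q) := by fun_prop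
      have a2 : Measurable fun v : (ℝ × (Fin m₁ → ℝ)) × S =>
          ‖am φ a v.1.2 v.1.1 (θ, v.2)‖ₑ :=
        (hamj.comp (f := fun v : (ℝ × (Fin m₁ → ℝ)) × S => ((θ, v.2), (v.1.2, v.1.1)))
          (by fun_prop)).enorm
      exact a1.mul a2
    have e1 : ∀ w : ℝ × (Fin m₁ → ℝ), ENNReal.ofReal ((1 + |w.1|) ^ (-(n * κ'))) * Z w.1 w.2 θ =
        (∫⁻ s, g w s ∂m) ^ q := by
      intro w
      rw [hg, hZ]
      simp only
      rw [lintegral_const_mul' _ _ (ENNReal.rpow_ne_top_of_nonneg (by positivity)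
        ENNReal.ofReal_ne_top), ENNReal.mul_rpow_of_nonneg _ _ hq0.le, ← ENNReal.rpow_mul,
        one_div_mul_cancel hq0.ne', ENNReal.rpow_one]
    simp_rw [e1]
    refine (Pool.Agent.H438R2.PD.A5.mink volume m g hgm q (by linarith)).trans ?_
    have e2 : ∀ s, ∫⁻ w : ℝ × (Fin m₁ → ℝ), g w s ^ q ≤ ‖φ (θ, s)‖ₑ ^ q * K := by
      intro s
      obtain ⟨Bj, hBj⟩ : ∃ Bj : Fin m₁ → ℝ → ℝ≥0∞, Bj = fun j t =>
        ∫⁻ x : ℝ, ‖E1 (a j (θ, s)) x t‖ₑ ^ q := ⟨_, rfl⟩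
      have hadm : ∀ j, Adm (a j (θ, s)) := fun j => h.adm j (θ, s)
      have hBm : ∀ j, Measurable (Bj j) := fun j => by
        rw [hBj]
        exact ((E1_meas (hadm j)).enorm.pow_const q).lintegral_prod_left'
      have hg2 : ∀ w : ℝ × (Fin m₁ → ℝ), g w s ^ q = ‖φ (θ, s)‖ₑ ^ q *
          (ENNReal.ofReal ((1 + |w.1|) ^ (-(n * κ'))) *
            ∏ j, ‖E1 (a j (θ, s)) (w.2 j) w.1‖ₑ ^ q) := by
        intro w
        rw [hg]
        simp only
        rw [ENNReal.mul_rpow_of_nonneg _ _ hq0.le, ← ENNReal.rpow_mul,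
          one_div_mul_cancel hq0.ne', ENNReal.rpow_one]
        unfold am
        rw [enorm_mul, enorm_prod, ENNReal.mul_rpow_of_nonneg _ _ hq0.le,
          ← ENNReal.prod_rpow_of_nonneg hq0.le]
        ring
      simp_rw [hg2]
      rw [lintegral_const_mul' _ _ (ENNReal.rpow_ne_top_of_nonneg hq0.le enorm_ne_top)]
      gcongr
      have hpm : Measurable fun w : ℝ × (Fin m₁ → ℝ) =>
          ENNReal.ofReal ((1 + |w.1|) ^ (-(n * κ'))) *
            ∏ j, ‖E1 (a j (θ, s)) (w.2 j) w.1‖ₑ ^ q := by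
        have a1 : Measurable fun w : ℝ × (Fin m₁ → ℝ) =>
          ENNReal.ofReal ((1 + |w.1|) ^ (-(n * κ'))) := by fun_prop
        apply a1.mul
        apply Finset.measurable_prod
        intro j _
        exact (((E1_meas (hadm j)).enorm.pow_const q)).comp
          (f := fun w : ℝ × (Fin m₁ → ℝ) => (w.2 j, w.1)) (by fun_prop)
      rw [Measure.volume_eq_prod, lintegral_prod _ hpm.aemeasurable]
      obtain ⟨F, hF'⟩ : ∃ F : Fin m₁ ⊕ Fin n → ℝ → ℝ≥0∞,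
        F = Sum.elim (fun j t => Bj j t ^ (N : ℝ))
          (fun _ t => ENNReal.ofReal ((1 + |t|) ^ (-(κ' * N / 2)))) := ⟨_, rfl⟩
      obtain ⟨P, hP⟩ : ∃ P : Fin m₁ ⊕ Fin n → ℝ, P = Sum.elim (fun _ => 1 / (N : ℝ))
        (fun _ => 2 / (N : ℝ)) := ⟨_, rfl⟩
      have hFm : ∀ i, Measurable (F i) := by
        intro i
        rw [hF']
        rcases i with j | j
        · exact (hBm j).pow_const _
        · simp only [Sum.elim_inr]
          fun_prop
      have hsum : ∑ i, P i = 1 := by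
        rw [hP, Fintype.sum_sum_type]
        simp only [Sum.elim_inl, Sum.elim_inr, Finset.sum_const, Finset.card_univ,
          Fintype.card_fin, nsmul_eq_mul]
        have h1 : (N : ℝ) = m₁ + 2 * n := by exact_mod_cast hN
        rw [mul_one_div, mul_div_assoc', ← add_div, mul_comm (n : ℝ) 2, ← h1, div_self hN0.ne']
      have hP0 : ∀ i, 0 ≤ P i := by
        intro i
        rw [hP]
        rcases i with j | j
        · simp only [Sum.elim_inl]; positivity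
        · simp only [Sum.elim_inr]; positivity
      have e3 : ∀ t : ℝ, ∫⁻ y : Fin m₁ → ℝ, ENNReal.ofReal ((1 + |t|) ^ (-(n * κ'))) *
          ∏ j, ‖E1 (a j (θ, s)) (y j) t‖ₑ ^ q = ∏ i, F i t ^ P i := by
        intro t
        rw [lintegral_const_mul' _ _ ENNReal.ofReal_ne_top,
          lint_pi (fun j x => ‖E1 (a j (θ, s)) x t‖ₑ ^ q)
            (fun j => (E1t_meas (hadm j) t).enorm.pow_const q)]
        rw [Fintype.prod_sum_type, hF', hP]
        simp only [Sum.elim_inl, Sum.elim_inr]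
        rw [mul_comm]
        congr 1
        · apply Finset.prod_congr rfl
          intro j _
          rw [← ENNReal.rpow_mul, mul_one_div_cancel hN0.ne', ENNReal.rpow_one, hBj]
        · rw [Finset.prod_const, Finset.card_univ, Fintype.card_fin,
            ENNReal.ofReal_rpow_of_nonneg (by positivity) (by positivity),
            ← Real.rpow_mul (by positivity), ← ENNReal.ofReal_pow (by positivity),
            ← Real.rpow_natCast, ← Real.rpow_mul (by positivity)]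
          congr 2
          field_simp
      simp_rw [e3]
      calc ∫⁻ t, ∏ i, F i t ^ P i ≤ ∏ i, (∫⁻ t, F i t) ^ P i :=
            ENNReal.lintegral_prod_norm_pow_le Finset.univ (fun i _ => (hFm i).aemeasurable) hsum
              (fun i _ => hP0 i)
        _ ≤ K := by
            rw [hK, Fintype.prod_sum_type, hF', hP]
            simp only [Sum.elim_inl, Sum.elim_inr]
            refine mul_le_mul' ?_ ?_
            · calc ∏ j : Fin m₁, (∫⁻ t, Bj j t ^ (N : ℝ)) ^ (1 / (N : ℝ))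
                  ≤ ∏ _j : Fin m₁, (C : ℝ≥0∞) ^ (1 / (N : ℝ)) := by
                    refine Finset.prod_le_prod' fun j _ =>
                      ENNReal.rpow_le_rpow ?_ (by positivity)
                    rw [hBj]
                    exact hC ℂ (a j (θ, s)) (hadm j)
                _ = _ := by rw [Finset.prod_const, Finset.card_univ, Fintype.card_fin]
            · rw [Finset.prod_const, Finset.card_univ, Fintype.card_fin, hD]
    calc (∫⁻ s, (∫⁻ w : ℝ × (Fin m₁ → ℝ), g w s ^ q) ^ (1 / q) ∂m) ^ q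
        ≤ (∫⁻ s, ‖φ (θ, s)‖ₑ * K ^ (1 / q) ∂m) ^ q := by
          apply ENNReal.rpow_le_rpow _ hq0.le
          apply lintegral_mono
          intro s
          calc (∫⁻ w : ℝ × (Fin m₁ → ℝ), g w s ^ q) ^ (1 / q)
              ≤ (‖φ (θ, s)‖ₑ ^ q * K) ^ (1 / q) := ENNReal.rpow_le_rpow (e2 s) (by positivity)
            _ = _ := by
                rw [ENNReal.mul_rpow_of_nonneg _ _ (by positivity), ← ENNReal.rpow_mul,
                  mul_one_div_cancel hq0.ne', ENNReal.rpow_one]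
      _ = _ := by
          rw [lintegral_mul_const' _ _ (ENNReal.rpow_ne_top_of_nonneg (by positivity) hKt),
            ENNReal.mul_rpow_of_nonneg _ _ hq0.le, ← ENNReal.rpow_mul,
            one_div_mul_cancel hq0.ne', ENNReal.rpow_one, mul_comm]
  rw [Measure.volume_eq_prod, lintegral_prod_symm _ hEm.aemeasurable]
  have hWm : Measurable fun w : (ℝ × (Fin m₁ → ℝ)) × (Fin n → ℝ) =>
      ENNReal.ofReal ((1 + |w.1.1|) ^ (-(n * κ'))) * Z w.1.1 w.1.2 w.2 := by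
    have a1 : Measurable fun w : (ℝ × (Fin m₁ → ℝ)) × (Fin n → ℝ) =>
      ENNReal.ofReal ((1 + |w.1.1|) ^ (-(n * κ'))) := by fun_prop
    exact a1.mul hZm
  calc ∫⁻ t, ∫⁻ X : Fin N → ℝ, ‖EE f (X, t)‖ₑ ^ q
      ≤ ∫⁻ t, ENNReal.ofReal (C0 * (1 + |t|) ^ (-(n * κ'))) *
        ∫⁻ y : Fin m₁ → ℝ, ∫⁻ θ, Z t y θ ∂(mun n) := lintegral_mono hfx
    _ = ENNReal.ofReal C0 * ∫⁻ t, ∫⁻ y : Fin m₁ → ℝ,
          ∫⁻ θ, ENNReal.ofReal ((1 + |t|) ^ (-(n * κ'))) * Z t y θ ∂(mun n) := by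
        rw [← lintegral_const_mul' _ _ ENNReal.ofReal_ne_top]
        apply lintegral_congr
        intro t
        rw [ENNReal.ofReal_mul hC0.le, mul_assoc,
          ← lintegral_const_mul' _ _ ENNReal.ofReal_ne_top]
        congr 1
        apply lintegral_congr
        intro y
        rw [lintegral_const_mul' _ _ ENNReal.ofReal_ne_top]
    _ = ENNReal.ofReal C0 * ∫⁻ w : ℝ × (Fin m₁ → ℝ),
          (∫⁻ θ, ENNReal.ofReal ((1 + |w.1|) ^ (-(n * κ'))) * Z w.1 w.2 θ ∂(mun n)) := by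
        congr 1
        rw [Measure.volume_eq_prod]
        exact (lintegral_prod _ (hWm.lintegral_prod_right' (ν := mun n)).aemeasurable).symm
    _ = ENNReal.ofReal C0 * ∫⁻ θ, (∫⁻ w : ℝ × (Fin m₁ → ℝ),
          ENNReal.ofReal ((1 + |w.1|) ^ (-(n * κ'))) * Z w.1 w.2 θ) ∂(mun n) := by
        congr 1
        exact lintegral_lintegral_swap hWm.aemeasurable
    _ ≤ ENNReal.ofReal C0 * ∫⁻ θ, K * (∫⁻ s, ‖φ (θ, s)‖ₑ ∂m) ^ q ∂(mun n) := by
        gcongr with θ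
        exact hamp θ
    _ = _ := by
        rw [lintegral_const_mul' _ _ hKt, mul_assoc]

end Pool.Agent.R245.PD
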